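import Pool.Agent.H684R3.CountP

set_option autoImplicit false

/-! From the Ramsey property to a positive proportion of the patterns with all differences divisible
by `q`. -/

open Finset

namespace Pool.Agent.H684R3

open Pool.Agent.H312R2 (base mem_base Fac Fac_sum Fac_pow Fac_nonneg cnt_upper en en_mem en_mono pairs)
open Pool.Agent.H646 (rat)
open Pool.Agent.H646.TuplesM (rat_ge_one rat_nonneg)

theorem rat_mul_le (a b : ℕ) : rat (a * b) ≤ rat a * rat b := by
  unfold rat
  rcases Nat.eq_zero_or_pos a with ha | ha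
  · subst ha
    simp
  rcases Nat.eq_zero_or_pos b with hb | hb
  · subst hb
    simp
  have h1 : (0 : ℝ) < a.totient := by exact_mod_cast Nat.totient_pos.2 ha
  have h2 : (0 : ℝ) < b.totient := by exact_mod_cast Nat.totient_pos.2 hb
  have h3 : ((a.totient * b.totient : ℕ) : ℝ) ≤ ((a * b).totient : ℝ) := by
    exact_mod_cast Nat.totient_super_multiplicative a b
  push_cast at h3 ⊢
  rw [div_mul_div_comm]
  exact div_le_div_of_nonneg_left (by positivity) (by positivity) h3

theorem en_dilate (k q : ℕ) (hq : 1 ≤ q) (H : Finset ℕ) (hH : H.card = k) (j : Fin k) :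
    en k (H.image (fun h => q * h)) j = q * en k H j := by
  classical
  have hc : (H.image (fun h => q * h)).card = k := by
    rw [card_image_of_injective _ (fun a b h => Nat.eq_of_mul_eq_mul_left (by omega) h), hH]
  have h1 : (fun j => q * en k H j) = (H.image (fun h => q * h)).orderEmbOfFin hc := by
    apply Finset.orderEmbOfFin_unique
    · intro x
      exact mem_image_of_mem _ (en_mem hH x)
    · intro a b hab
      exact Nat.mul_lt_mul_of_pos_left (en_mono hH hab) (by omega)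
  have h2 : en k (H.image (fun h => q * h)) = (H.image (fun h => q * h)).orderEmbOfFin hc := by
    unfold en
    rw [dif_pos hc]
  rw [h2, ← h1]

theorem Fac_dilate (k A q : ℕ) (hq : 1 ≤ q) (H : Finset ℕ) (hH : H.card = k) :
    Fac k A (H.image (fun h => q * h)) ≤ rat q ^ (A * (pairs k).card) * Fac k A H := by
  unfold Fac
  have h1 : rat q ^ (A * (pairs k).card) = ∏ _p ∈ pairs k, rat q ^ A := by
    rw [prod_const, pow_mul]
  rw [h1, ← prod_mul_distrib]
  apply prod_le_prod
  · intro p _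
    exact pow_nonneg (rat_nonneg _) _
  · intro p _
    rw [en_dilate k q hq H hH, en_dilate k q hq H hH, ← Nat.mul_sub, ← mul_pow]
    exact pow_le_pow_left₀ (rat_nonneg _) (rat_mul_le _ _) _

open Classical in
theorem main_countQ (k : ℕ) (hk : 2 ≤ k) (K : ℕ) (hK : k ≤ K) :
    ∃ c C₁ : ℝ, 0 < c ∧ 0 < C₁ ∧
    ∃ D B₀ : ℕ, ∀ δ : ℝ, 0 < δ → ∀ q : ℕ, 1 ≤ q → ∀ B : ℕ, B₀ ≤ B →
    ∀ A : Finset ℕ, (∀ a ∈ A, a.Prime ∧ a ≤ B) →
    δ * B / Real.log B ≤ A.card → ∀ Gd : Finset ℕ → Prop,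
    (∀ T ⊆ A, T.card = K → ∃ U ⊆ T, U.card = k ∧ ∃ a ∈ U, (∀ u ∈ U, a ≤ u) ∧
      Gd (U.image (fun u => u - a))) →
    ∀ Y : ℕ, C₁ / δ * q * Real.log B ≤ Y → q ≤ Y → Y ≤ B →
    c * δ ^ (2 * k) / rat q ^ D * ((Y : ℝ) / q) ^ (k - 1) ≤ (((base k (Y / q)).filter
      (fun H => (∃ a, ∀ h ∈ H, a + q * h ∈ A) ∧ Gd (H.image (fun h => q * h)))).card : ℝ) := by
  obtain ⟨C, hC0, A', u0, hC⟩ := cnt_upper k (by omega)
  obtain ⟨C₄, hC40, hC4⟩ := Fac_sum k hk (A' * 2)
  have hK0 : (0 : ℝ) < K := by exact_mod_cast (by omega : 0 < K)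
  obtain ⟨k', rfl⟩ : ∃ k', k = k' + 1 := ⟨k - 1, by omega⟩
  rw [Nat.add_sub_cancel] at hC4
  rw [Nat.add_sub_cancel]
  refine ⟨((1 / 2) ^ (k' + 1) / (2 ^ k' * K ^ (k' + 1) * C)) ^ 2 / (C₄ * 2 ^ k'), 4 * K,
    by positivity, by positivity, 2 * (A' * (pairs (k' + 1)).card), max u0 3, ?_⟩
  intro δ hδ q hq B hB A hA hAδ Gd hR Y hY1 hqY hY2
  obtain ⟨R, hRdef⟩ : ∃ R : ℝ, R = rat q ^ (A' * (pairs (k' + 1)).card) := ⟨_, rfl⟩
  have hR1 : 1 ≤ R := by
    rw [hRdef]
    exact one_le_pow₀ (rat_ge_one hq)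
  have hR0 : 0 < R := by linarith
  obtain ⟨c', hc'⟩ : ∃ c' : ℝ, c' = (δ / 2) ^ (k' + 1) / (2 ^ k' * K ^ (k' + 1) * C) := ⟨_, rfl⟩
  have hc'0 : 0 < c' := by
    rw [hc']
    positivity
  have hB3 : 3 ≤ B := (le_max_right _ _).trans hB
  have hBu : u0 ≤ B := (le_max_left _ _).trans hB
  have hBr : (3 : ℝ) ≤ B := by exact_mod_cast hB3
  have hlog : 0 < Real.log B := Real.log_pos (by linarith)
  have hq0 : (0 : ℝ) < q := by exact_mod_cast hq
  have hYr : (0 : ℝ) < Y := lt_of_lt_of_le (by positivity) hY1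
  have hY0 : 0 < Y := by exact_mod_cast hYr
  have hYB : (Y : ℝ) ≤ B := by exact_mod_cast hY2
  obtain ⟨Z, hZ⟩ : ∃ Z : ℝ, Z = (Y : ℝ) / q := ⟨_, rfl⟩
  have hZ0 : 0 < Z := by
    rw [hZ]
    positivity
  have hZ1 : 1 ≤ Z := by
    rw [hZ, le_div_iff₀ hq0, one_mul]
    exact_mod_cast hqY
  have hqZ : Z * q = Y := by
    rw [hZ]
    field_simp
  obtain ⟨M, hM⟩ : ∃ M : ℕ, M = B / Y + 1 := ⟨_, rfl⟩
  have hMr : (M : ℝ) ≤ 2 * B / Y := by
    rw [hM]
    push_cast
    have h1 : ((B / Y : ℕ) : ℝ) ≤ (B : ℝ) / Y := Nat.cast_div_le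
    have h2 : (1 : ℝ) ≤ (B : ℝ) / Y := by rwa [le_div_iff₀ hYr, one_mul]
    have h3 : 2 * (B : ℝ) / Y = (B : ℝ) / Y + (B : ℝ) / Y := by ring
    rw [h3]
    linarith
  obtain ⟨I, hI⟩ : ∃ I : Finset (ℕ × ℕ), I = range M ×ˢ range q := ⟨_, rfl⟩
  have hIc : (I.card : ℝ) = M * q := by
    rw [hI, card_product, card_range, card_range]
    push_cast
    ring
  have hIr : (I.card : ℝ) ≤ 2 * B / Z := by
    rw [hIc]
    have h1 : (M : ℝ) * q ≤ 2 * B / Y * q := mul_le_mul_of_nonneg_right hMr hq0.le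
    refine h1.trans (le_of_eq ?_)
    rw [← hqZ]
    field_simp
  let cell : ℕ × ℕ → Finset ℕ := fun e => A.filter (fun p => (p / Y, p % q) = e)
  have hsum : ∑ e ∈ I, (cell e).card = A.card := by
    have h1 : ∀ p ∈ A, (p / Y, p % q) ∈ I := by
      intro p hp
      rw [hI, mem_product, mem_range, mem_range, hM]
      exact ⟨Nat.lt_succ_of_le (Nat.div_le_div_right (hA p hp).2), Nat.mod_lt _ (by omega)⟩
    exact (card_eq_sum_card_fiberwise (f := fun p => (p / Y, p % q)) h1).symm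
  -- the hypergraph bound in each cell
  have hT : ∀ e ∈ I, ((cell e).card - K) ^ (k' + 1) ≤
      K ^ (k' + 1) * (GU (k' + 1) Gd (cell e)).card := by
    intro i _
    have h := hyper (k' + 1) K (by omega) hK _ (cell i)
      fun T hT => hR T (hT.trans (filter_subset _ _))
    unfold GU
    convert h
  -- the set of the good patterns
  obtain ⟨GG, hGG⟩ : ∃ GG : Finset (Finset ℕ), GG = (base (k' + 1) (Y / q)).filter
    (fun H => (∃ a, ∀ h ∈ H, a + q * h ∈ A) ∧ Gd (H.image (fun h => q * h))) := ⟨_, rfl⟩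
  obtain ⟨P, hP⟩ : ∃ P : Finset ℕ → Finset ℕ, P = fun H => (Finset.Icc 1 B).filter
    (fun a => ∀ h ∈ H.image (fun h => q * h), (a + h).Prime) := ⟨_, rfl⟩
  have hEsum : ∑ e ∈ I, (GU (k' + 1) Gd (cell e)).card ≤ ∑ H ∈ GG, (P H).card := by
    have h1 : I.sum (fun e => (GU (k' + 1) Gd (cell e)).card) =
        (I.biUnion (fun e => GU (k' + 1) Gd (cell e))).card := by
      rw [card_biUnion]
      intro i _ j _ hij
      rw [Function.onFun, disjoint_left]
      intro U hU hU'
      rw [mem_GU] at hU hU'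
      obtain ⟨a, ha, -⟩ := hU.2
      apply hij
      have h2 := (mem_filter.1 (hU.1.1 ha)).2
      have h3 := (mem_filter.1 (hU'.1.1 ha)).2
      rw [← h2, ← h3]
    rw [h1]
    have h2 : I.biUnion (fun e => GU (k' + 1) Gd (cell e)) ⊆
        GG.biUnion (fun H => (P H).image (fun a => H.image (fun h => a + q * h))) := by
      intro U hU
      obtain ⟨e, _, hU⟩ := mem_biUnion.1 hU
      rw [mem_GU] at hU
      obtain ⟨⟨hU1, hU2⟩, a, ha, hmin, hg⟩ := hU
      have hUA : ∀ u ∈ U, u ∈ A := fun u hu => (mem_filter.1 (hU1 hu)).1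
      have hUY : ∀ u ∈ U, u - a ≤ Y ∧ a + q * ((u - a) / q) = u := by
        intro u hu
        have h4 := (mem_filter.1 (hU1 hu)).2
        have h5 := (mem_filter.1 (hU1 ha)).2
        have h6 : (a / Y, a % q) = (u / Y, u % q) := by rw [h4, h5]
        have h8 : a / Y = u / Y := congrArg Prod.fst h6
        have h12 : a % q = u % q := congrArg Prod.snd h6
        have h9 := Nat.div_add_mod a Y
        have h10 := Nat.div_add_mod u Y
        have h11 := Nat.mod_lt u hY0
        rw [h8] at h9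
        have h13 : q ∣ u - a := (Nat.modEq_iff_dvd' (hmin u hu)).1 h12
        have h14 := Nat.mul_div_cancel' h13
        have h15 := hmin u hu
        constructor
        · omega
        · rw [h14]
          omega
      have himg : (U.image (fun u => (u - a) / q)).image (fun h => q * h) =
          U.image (fun u => u - a) := by
        rw [image_image]
        apply image_congr
        intro u hu
        have h3 := (hUY u hu).2
        show q * ((u - a) / q) = u - a
        omega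
      rw [mem_biUnion]
      refine ⟨U.image (fun u => (u - a) / q), ?_, ?_⟩
      · rw [hGG, mem_filter, mem_base]
        refine ⟨⟨⟨?_, ?_⟩, ?_⟩, ⟨a, ?_⟩, ?_⟩
        · intro x hx
          obtain ⟨u, hu, rfl⟩ := mem_image.1 hx
          rw [mem_range]
          exact Nat.lt_succ_of_le (Nat.div_le_div_right (hUY u hu).1)
        · rw [card_image_of_injOn, hU2]
          intro u hu v hv huv
          have h3 := (hUY u hu).2
          have h4 := (hUY v hv).2
          have h5 : (u - a) / q = (v - a) / q := huv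
          rw [← h3, ← h4, h5]
        · rw [mem_image]
          exact ⟨a, ha, by rw [Nat.sub_self, Nat.zero_div]⟩
        · intro x hx
          obtain ⟨u, hu, rfl⟩ := mem_image.1 hx
          rw [(hUY u hu).2]
          exact hUA u hu
        · rw [himg]
          exact hg
      · rw [mem_image]
        refine ⟨a, ?_, ?_⟩
        · rw [hP, mem_filter, mem_Icc]
          refine ⟨⟨(hA a (hUA a ha)).1.pos, (hA a (hUA a ha)).2⟩, ?_⟩
          rw [himg]
          intro x hx
          obtain ⟨u, hu, rfl⟩ := mem_image.1 hx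
          have h3 := hmin u hu
          have h4 : a + (u - a) = u := by omega
          rw [h4]
          exact (hA u (hUA u hu)).1
        · rw [image_image]
          ext x
          rw [mem_image]
          constructor
          · rintro ⟨u, hu, rfl⟩
            show a + q * ((u - a) / q) ∈ U
            rw [(hUY u hu).2]
            exact hu
          · intro hx
            exact ⟨x, hx, (hUY x hx).2⟩
    refine (card_le_card h2).trans (card_biUnion_le.trans ?_)
    apply Finset.sum_le_sum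
    intro H _
    exact card_image_le
  -- upper bound
  have hup : (∑ e ∈ I, ((GU (k' + 1) Gd (cell e)).card : ℝ)) ≤
      (C * B / Real.log B ^ (k' + 1) * R) * ∑ H ∈ GG, Fac (k' + 1) A' H := by
    have h1 : (∑ e ∈ I, ((GU (k' + 1) Gd (cell e)).card : ℝ)) ≤
        ∑ H ∈ GG, ((P H).card : ℝ) := by
      exact_mod_cast hEsum
    refine h1.trans ?_
    rw [mul_sum]
    apply Finset.sum_le_sum
    intro H hH
    rw [hGG, mem_filter, mem_base] at hH
    rw [hP]
    have hHc : H.card = k' + 1 := hH.1.1.2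
    have hc : (H.image (fun h => q * h)).card = k' + 1 := by
      rw [card_image_of_injective _ (fun a b h => Nat.eq_of_mul_eq_mul_left (by omega) h), hHc]
    have h2 := hC B hBu _ hc
    have h3 := Fac_dilate (k' + 1) A' q hq H hHc
    rw [← hRdef] at h3
    have h4 : C * B / Real.log B ^ (k' + 1) * Fac (k' + 1) A' (H.image (fun h => q * h)) ≤
        C * B / Real.log B ^ (k' + 1) * (R * Fac (k' + 1) A' H) :=
      mul_le_mul_of_nonneg_left h3 (by positivity)
    refine le_trans (le_of_eq ?_) (h2.trans (h4.trans (le_of_eq (by ring))))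
    congr 2
  -- lower bound
  have hlow1 : (∑ e ∈ I, (((cell e).card - K : ℕ) : ℝ)) ≥ δ / 2 * (B / Real.log B) := by
    have h1 : ∀ e ∈ I, ((cell e).card : ℝ) - K ≤ (((cell e).card - K : ℕ) : ℝ) := by
      intro i _
      have : (cell i).card ≤ ((cell i).card - K) + K := by omega
      have h2 : ((cell i).card : ℝ) ≤ (((cell i).card - K : ℕ) : ℝ) + K := by exact_mod_cast this
      linarith
    have h2 := Finset.sum_le_sum h1
    rw [Finset.sum_sub_distrib, Finset.sum_const, nsmul_eq_mul] at h2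
    have h3 : (∑ e ∈ I, ((cell e).card : ℝ)) = A.card := by exact_mod_cast hsum
    rw [h3] at h2
    have h4 : (I.card : ℝ) * K ≤ δ / 2 * (B / Real.log B) := by
      have h5 : 4 * K / δ * Real.log B ≤ Z := by
        rw [hZ, le_div_iff₀ hq0]
        calc 4 * K / δ * Real.log B * q = 4 * K / δ * q * Real.log B := by ring
          _ ≤ Y := hY1
      have h6 : (I.card : ℝ) * K ≤ 2 * B / Z * K := mul_le_mul_of_nonneg_right hIr hK0.le
      refine h6.trans ?_
      rw [div_mul_eq_mul_div, div_le_iff₀ hZ0]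
      have h7 : δ / 2 * (B / Real.log B) * (4 * K / δ * Real.log B) = 2 * B * K := by
        field_simp
        ring
      rw [← h7]
      exact mul_le_mul_of_nonneg_left h5 (by positivity)
    have h8 : δ * B / Real.log B = δ / 2 * (B / Real.log B) + δ / 2 * (B / Real.log B) := by ring
    rw [h8] at hAδ
    linarith
  have hcs : (∑ e ∈ I, (((cell e).card - K : ℕ) : ℝ)) ^ (k' + 1) ≤
      (I.card : ℝ) ^ k' * ∑ e ∈ I, (((cell e).card - K : ℕ) : ℝ) ^ (k' + 1) := by
    have h1 := pow_sum_div_card_le_sum_pow (s := I)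
      (f := fun e => (((cell e).card - K : ℕ) : ℝ)) (fun _ _ => Nat.cast_nonneg _) k'
    have hM0 : (0 : ℝ) < I.card := by
      rw [hIc, hM]
      positivity
    rw [div_le_iff₀ (by positivity)] at h1
    rw [mul_comm]
    exact h1
  have hT2 : ∑ e ∈ I, (((cell e).card - K : ℕ) : ℝ) ^ (k' + 1) ≤
      (K : ℝ) ^ (k' + 1) * ∑ e ∈ I, ((GU (k' + 1) Gd (cell e)).card : ℝ) := by
    rw [mul_sum]
    apply Finset.sum_le_sum
    intro i hi
    exact_mod_cast hT i hi
  obtain ⟨E, hE⟩ : ∃ E : ℝ, E = ∑ e ∈ I, ((GU (k' + 1) Gd (cell e)).card : ℝ) :=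
    ⟨_, rfl⟩
  rw [← hE] at hup hT2
  obtain ⟨S2, hS2⟩ : ∃ S2 : ℝ, S2 = ∑ H ∈ GG, Fac (k' + 1) A' H := ⟨_, rfl⟩
  rw [← hS2] at hup
  have hE0 : 0 ≤ E := by
    rw [hE]
    exact Finset.sum_nonneg fun _ _ => Nat.cast_nonneg _
  have hS20 : 0 ≤ S2 := by
    rw [hS2]
    exact Finset.sum_nonneg fun _ _ => Fac_nonneg _ _ _
  have hB0 : (0 : ℝ) < B := by linarith
  have hkey : c' / R * Z ^ k' ≤ S2 := by
    have h1 : (δ / 2 * (B / Real.log B)) ^ (k' + 1) ≤
        (I.card : ℝ) ^ k' * ((K : ℝ) ^ (k' + 1) * E) := by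
      refine le_trans ?_ (hcs.trans (mul_le_mul_of_nonneg_left hT2 (by positivity)))
      exact pow_le_pow_left₀ (by positivity) hlow1 _
    have h2 : (I.card : ℝ) ^ k' * ((K : ℝ) ^ (k' + 1) * E) ≤
        (2 * B / Z) ^ k' *
          ((K : ℝ) ^ (k' + 1) * ((C * B / Real.log B ^ (k' + 1) * R) * S2)) := by
      apply mul_le_mul (pow_le_pow_left₀ (Nat.cast_nonneg _) hIr _) _ (by positivity)
        (by positivity)
      exact mul_le_mul_of_nonneg_left hup (by positivity)
    have h3 := h1.trans h2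
    have h4 : (δ / 2 * (B / Real.log B)) ^ (k' + 1) =
        (B ^ (k' + 1) / Real.log B ^ (k' + 1)) * (δ / 2) ^ (k' + 1) := by
      rw [mul_pow, div_pow]
      ring
    have h5 : (2 * (B : ℝ) / Z) ^ k' *
        ((K : ℝ) ^ (k' + 1) * ((C * B / Real.log B ^ (k' + 1) * R) * S2)) =
        ((B : ℝ) ^ (k' + 1) / Real.log B ^ (k' + 1)) *
          (2 ^ k' * K ^ (k' + 1) * C * (R * S2) / Z ^ k') := by
      rw [div_pow, mul_pow, pow_succ (B : ℝ) k']
      field_simp
    rw [h4, h5] at h3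
    have h6 : (0 : ℝ) < (B : ℝ) ^ (k' + 1) / Real.log B ^ (k' + 1) := by positivity
    have h7 := le_of_mul_le_mul_left h3 h6
    rw [le_div_iff₀ (by positivity)] at h7
    have h8 : c' * Z ^ k' ≤ R * S2 := by
      rw [hc', div_mul_eq_mul_div, div_le_iff₀ (by positivity)]
      linarith
    rw [div_mul_eq_mul_div, div_le_iff₀ hR0]
    linarith
  have hfin : S2 ^ 2 ≤ GG.card * (C₄ * (2 ^ k' * Z ^ k')) := by
    have h1 : S2 ^ 2 ≤ (∑ H ∈ GG, (1 : ℝ) ^ 2) * ∑ H ∈ GG, (Fac (k' + 1) A' H) ^ 2 := by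
      have h2 : S2 = ∑ H ∈ GG, 1 * Fac (k' + 1) A' H := by
        rw [hS2]
        simp
      rw [h2]
      exact Finset.sum_mul_sq_le_sq_mul_sq _ _ _
    have h3 : ∑ H ∈ GG, (1 : ℝ) ^ 2 = GG.card := by simp
    rw [h3] at h1
    refine h1.trans (mul_le_mul_of_nonneg_left ?_ (Nat.cast_nonneg _))
    calc ∑ H ∈ GG, (Fac (k' + 1) A' H) ^ 2 = ∑ H ∈ GG, Fac (k' + 1) (A' * 2) H := by
          apply Finset.sum_congr rfl
          intro H _
          exact Fac_pow _ _ _ _
      _ ≤ ∑ H ∈ base (k' + 1) (Y / q), Fac (k' + 1) (A' * 2) H := by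
          apply Finset.sum_le_sum_of_subset_of_nonneg
          · rw [hGG]
            exact filter_subset _ _
          · intro H _ _
            exact Fac_nonneg _ _ _
      _ ≤ C₄ * ((Y / q + 1) ^ k' : ℕ) := hC4 (Y / q)
      _ ≤ C₄ * (2 ^ k' * Z ^ k') := by
          apply mul_le_mul_of_nonneg_left _ hC40.le
          rw [← mul_pow]
          push_cast
          apply pow_le_pow_left₀ (by positivity)
          have : ((Y / q : ℕ) : ℝ) ≤ Z := by
            rw [hZ]
            exact Nat.cast_div_le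
          linarith
  have hc2 : (c' / R * Z ^ k') ^ 2 ≤ GG.card * (C₄ * (2 ^ k' * Z ^ k')) :=
    (pow_le_pow_left₀ (by positivity) hkey 2).trans hfin
  have h8 : c' ^ 2 / R ^ 2 / (C₄ * 2 ^ k') * Z ^ k' ≤ GG.card := by
    have h9 : (c' / R * Z ^ k') ^ 2 =
        (c' ^ 2 / R ^ 2 / (C₄ * 2 ^ k') * Z ^ k') * (C₄ * (2 ^ k' * Z ^ k')) := by
      field_simp
    rw [h9] at hc2
    exact le_of_mul_le_mul_right hc2 (by positivity)
  rw [hGG] at h8
  have h9 : ((1 / 2 : ℝ) ^ (k' + 1) / (2 ^ k' * K ^ (k' + 1) * C)) ^ 2 / (C₄ * 2 ^ k') *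
      δ ^ (2 * (k' + 1)) / rat q ^ (2 * (A' * (pairs (k' + 1)).card)) =
      c' ^ 2 / R ^ 2 / (C₄ * 2 ^ k') := by
    rw [hc', hRdef]
    have h10 : δ ^ (2 * (k' + 1)) = (δ ^ (k' + 1)) ^ 2 := by
      rw [← pow_mul]
      ring
    have h11 : (δ / 2) ^ (k' + 1) = (1 / 2 : ℝ) ^ (k' + 1) * δ ^ (k' + 1) := by
      rw [← mul_pow]
      ring
    have h12 : rat q ^ (2 * (A' * (pairs (k' + 1)).card)) =
        (rat q ^ (A' * (pairs (k' + 1)).card)) ^ 2 := by
      rw [← pow_mul]
      ring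
    rw [h10, h11, h12]
    ring
  rw [h9, ← hZ]
  exact h8

end Pool.Agent.H684R3
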