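import Pool.Agent.H684R3.FinalP
import Pool.Agent.H684R3.CountQ

set_option autoImplicit false

/-! Every set of `C log log X` integers in an interval of length `c f(X)` contains the pattern of `k`
consecutive primes. -/

open Finset Filter Topology

namespace Pool.Agent.H684R3

open Pool.Agent.H378R2 (yy)
open Pool.Agent.H256R2.SC (ff t1 t2 t3 t4)
open Pool.Agent.H312R2.RG
open Pool.Agent.H312R2 (base mem_base Fac Fac_sum Fac_pow Fac_nonneg cnt_upper en en_mem en_mono pairs)
open Pool.Agent.H646 (rat)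
open Pool.Agent.H646.TuplesM (rat_ge_one rat_nonneg)

/-- the primes of `(2Y, 3Y]` -/
theorem primes_23 : ∀ᶠ Y : ℕ in atTop,
    (Y : ℝ) / 2 / Real.log (3 * Y) ≤ (((Finset.Ioc (2 * Y) (3 * Y)).filter Nat.Prime).card : ℝ) := by
  have hpi := Pool.Agent.Helper923.PNT.pi_tendsto
  have hc : Tendsto (fun Y : ℕ => (Y : ℝ)) atTop atTop := tendsto_natCast_atTop_atTop
  have hc2 : Tendsto (fun Y : ℕ => (2 : ℝ) * (Y : ℝ)) atTop atTop :=
    hc.const_mul_atTop (by norm_num)
  have hc3 : Tendsto (fun Y : ℕ => (3 : ℝ) * (Y : ℝ)) atTop atTop :=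
    hc.const_mul_atTop (by norm_num)
  have h3 := hc3.eventually (hpi.eventually (lt_mem_nhds (show (19 / 20 : ℝ) < 1 by norm_num)))
  have h2 := hc2.eventually (hpi.eventually (gt_mem_nhds (show (1 : ℝ) < 21 / 20 by norm_num)))
  have hl : ∀ᶠ Y : ℕ in atTop, 20 ≤ Real.log (2 * Y) :=
    (Real.tendsto_log_atTop.comp hc2).eventually_ge_atTop 20
  filter_upwards [h2, h3, hl, eventually_ge_atTop 1] with Y h2 h3 hl hY
  have hY0 : (0 : ℝ) < Y := by exact_mod_cast hY
  have e2 : ⌊(2 : ℝ) * (Y : ℝ)⌋₊ = 2 * Y := by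
    have : (2 : ℝ) * (Y : ℝ) = ((2 * Y : ℕ) : ℝ) := by push_cast; ring
    rw [this, Nat.floor_natCast]
  have e3 : ⌊(3 : ℝ) * (Y : ℝ)⌋₊ = 3 * Y := by
    have : (3 : ℝ) * (Y : ℝ) = ((3 * Y : ℕ) : ℝ) := by push_cast; ring
    rw [this, Nat.floor_natCast]
  rw [e2] at h2
  rw [e3] at h3
  have hl3 : Real.log (3 * Y) ≤ 21 / 20 * Real.log (2 * Y) := by
    have h4 : Real.log (3 * Y) = Real.log (3 / 2) + Real.log (2 * Y) := by
      rw [← Real.log_mul (by norm_num) (by positivity)]
      congr 1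
      ring
    have h5 : Real.log (3 / 2) ≤ 3 / 2 - 1 := Real.log_le_sub_one_of_pos (by norm_num)
    linarith
  have hl2 : Real.log (2 * Y) ≤ Real.log (3 * Y) :=
    Real.log_le_log (by positivity) (by linarith)
  have h30 : 0 < Real.log (3 * Y) := by linarith
  have h20 : 0 < Real.log (2 * Y) := by linarith
  have hA : (19 / 20) * (3 * Y) / Real.log (3 * Y) ≤ (Nat.primeCounting (3 * Y) : ℝ) := by
    rw [div_le_iff₀ h30]
    have := (lt_div_iff₀ (show (0 : ℝ) < 3 * Y by positivity)).1 h3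
    linarith
  have hB : (Nat.primeCounting (2 * Y) : ℝ) ≤ (21 / 20) * (2 * Y) / Real.log (2 * Y) := by
    rw [le_div_iff₀ h20]
    have := (div_lt_iff₀ (show (0 : ℝ) < 2 * Y by positivity)).1 h2
    linarith
  have hB' : (21 / 20) * (2 * Y) / Real.log (2 * Y) ≤ (441 / 400) * (2 * Y) / Real.log (3 * Y) := by
    rw [div_le_div_iff₀ h20 h30]
    have : (21 / 20) * (2 * (Y : ℝ)) * Real.log (3 * Y) ≤
        (21 / 20) * (2 * (Y : ℝ)) * (21 / 20 * Real.log (2 * Y)) :=
      mul_le_mul_of_nonneg_left hl3 (by positivity)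
    linarith
  have hcount : Nat.primeCounting (3 * Y) = Nat.primeCounting (2 * Y) +
      ((Finset.Ioc (2 * Y) (3 * Y)).filter Nat.Prime).card := by
    rw [Nat.primeCounting, Nat.primeCounting', Nat.primeCounting, Nat.primeCounting',
      Nat.count_eq_card_filter_range, Nat.count_eq_card_filter_range]
    rw [← card_union_of_disjoint]
    · congr 1
      ext p
      simp only [mem_union, mem_filter, mem_range, mem_Ioc]
      constructor
      · rintro ⟨h1, h2⟩
        by_cases h : p < 2 * Y + 1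
        · exact Or.inl ⟨h, h2⟩
        · exact Or.inr ⟨⟨by omega, by omega⟩, h2⟩
      · rintro (⟨h1, h2⟩ | ⟨h1, h2⟩)
        · exact ⟨by omega, h2⟩
        · exact ⟨by omega, h2⟩
    · rw [disjoint_left]
      intro p hp hp'
      simp only [mem_filter, mem_range, mem_Ioc] at hp hp'
      omega
  have hcr : (Nat.primeCounting (3 * Y) : ℝ) = (Nat.primeCounting (2 * Y) : ℝ) +
      (((Finset.Ioc (2 * Y) (3 * Y)).filter Nat.Prime).card : ℝ) := by exact_mod_cast hcount
  have hfin : (Y : ℝ) / 2 / Real.log (3 * Y) + (441 / 400) * (2 * Y) / Real.log (3 * Y) ≤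
      (19 / 20) * (3 * Y) / Real.log (3 * Y) := by
    rw [← add_div]
    apply div_le_div_of_nonneg_right _ h30.le
    linarith
  linarith

/-- double counting: some translate of `B` contains `K` primes of `(Y, 4Y]` -/
theorem translate_primes (Y K z : ℕ) (B : Finset ℕ) (hB : ∀ b ∈ B, z ≤ b ∧ b ≤ z + Y)
    (hY : 0 < Y) (h : K * (2 * Y) ≤ B.card * ((Finset.Ioc (2 * Y) (3 * Y)).filter Nat.Prime).card) :
    ∃ a ∈ Finset.Ioc Y (3 * Y), K ≤ (B.filter (fun b => (b - z + a).Prime)).card := by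
  by_contra hcon
  push Not at hcon
  have h1 : ∑ a ∈ Finset.Ioc Y (3 * Y), (B.filter (fun b => (b - z + a).Prime)).card =
      ∑ b ∈ B, ((Finset.Ioc Y (3 * Y)).filter (fun a => (b - z + a).Prime)).card := by
    simp_rw [card_filter]
    exact sum_comm
  have h2 : ∀ b ∈ B, ((Finset.Ioc (2 * Y) (3 * Y)).filter Nat.Prime).card ≤
      ((Finset.Ioc Y (3 * Y)).filter (fun a => (b - z + a).Prime)).card := by
    intro b hb
    obtain ⟨hb1, hb2⟩ := hB b hb
    apply card_le_card_of_injOn (fun p => p - (b - z))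
    · intro p hp
      rw [mem_coe, mem_filter, mem_Ioc] at hp
      rw [mem_coe, mem_filter, mem_Ioc]
      have h3 : b - z + (p - (b - z)) = p := by omega
      refine ⟨⟨?_, ?_⟩, ?_⟩
      · show Y < p - (b - z)
        omega
      · show p - (b - z) ≤ 3 * Y
        omega
      · show (b - z + (p - (b - z))).Prime
        rw [h3]
        exact hp.2
    · intro p hp p' hp' hpp
      rw [mem_coe, mem_filter, mem_Ioc] at hp hp'
      have h3 : p - (b - z) = p' - (b - z) := hpp
      omega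
  have h3 : B.card * ((Finset.Ioc (2 * Y) (3 * Y)).filter Nat.Prime).card ≤
      ∑ b ∈ B, ((Finset.Ioc Y (3 * Y)).filter (fun a => (b - z + a).Prime)).card := by
    rw [← smul_eq_mul]
    exact card_nsmul_le_sum _ _ _ h2
  have h4 : ∑ a ∈ Finset.Ioc Y (3 * Y), (B.filter (fun b => (b - z + a).Prime)).card <
      ∑ _a ∈ Finset.Ioc Y (3 * Y), K := by
    apply sum_lt_sum_of_nonempty
    · exact ⟨3 * Y, by rw [mem_Ioc]; omega⟩
    · exact hcon
  rw [sum_const, Nat.card_Ioc, smul_eq_mul, h1] at h4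
  have h5 : (3 * Y - Y) * K = K * (2 * Y) := by
    have : 3 * Y - Y = 2 * Y := by omega
    rw [this]
    ring
  omega

open Classical in
/-- the number of the blocks of `k` consecutive primes which are translates of `U` -/
noncomputable def occT (k : ℕ) (X : ℝ) (U : Finset ℕ) : ℕ :=
  ((Finset.range ⌊4 * X⌋₊).filter (fun n => X < Nat.nth Nat.Prime n ∧
    (Nat.nth Nat.Prime (n + (k - 1)) : ℝ) ≤ 4 * X ∧ ∃ a b : ℕ,
    (Finset.range k).image (fun j => Nat.nth Nat.Prime (n + j) + a) =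
      U.image (fun u => u + b))).card

/-- double counting -/
theorem sum_translates (Y z : ℕ) (B : Finset ℕ) (hB : ∀ b ∈ B, z ≤ b ∧ b ≤ z + Y) :
    B.card * ((Finset.Ioc (2 * Y) (3 * Y)).filter Nat.Prime).card ≤
      ∑ a ∈ Finset.Ioc Y (3 * Y), (B.filter (fun b => (b - z + a).Prime)).card := by
  have h1 : ∑ a ∈ Finset.Ioc Y (3 * Y), (B.filter (fun b => (b - z + a).Prime)).card =
      ∑ b ∈ B, ((Finset.Ioc Y (3 * Y)).filter (fun a => (b - z + a).Prime)).card := by
    simp_rw [card_filter]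
    exact sum_comm
  have h2 : ∀ b ∈ B, ((Finset.Ioc (2 * Y) (3 * Y)).filter Nat.Prime).card ≤
      ((Finset.Ioc Y (3 * Y)).filter (fun a => (b - z + a).Prime)).card := by
    intro b hb
    obtain ⟨hb1, hb2⟩ := hB b hb
    apply card_le_card_of_injOn (fun p => p - (b - z))
    · intro p hp
      rw [mem_coe, mem_filter, mem_Ioc] at hp
      rw [mem_coe, mem_filter, mem_Ioc]
      have h3 : b - z + (p - (b - z)) = p := by omega
      refine ⟨⟨?_, ?_⟩, ?_⟩
      · show Y < p - (b - z)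
        omega
      · show p - (b - z) ≤ 3 * Y
        omega
      · show (b - z + (p - (b - z))).Prime
        rw [h3]
        exact hp.2
    · intro p hp p' hp' hpp
      rw [mem_coe, mem_filter, mem_Ioc] at hp hp'
      have h3 : p - (b - z) = p' - (b - z) := hpp
      omega
  rw [h1, ← smul_eq_mul]
  exact card_nsmul_le_sum _ _ _ h2

open Classical in
theorem any_count (k : ℕ) (hk : 2 ≤ k) (K : ℕ) (hK : k ≤ K) :
    ∃ c C₁ : ℝ, 0 < c ∧ 0 < C₁ ∧ ∃ D Y₀ : ℕ, ∀ Y : ℕ, Y₀ ≤ Y → ∀ (B : Finset ℕ) (z : ℕ),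
    (∀ b ∈ B, z ≤ b ∧ b ≤ z + Y) → C₁ * Real.log (3 * Y) ≤ B.card → ∀ Gd : Finset ℕ → Prop,
    (∀ a ∈ Finset.Ioc Y (3 * Y), ∀ T ⊆ B, T.card = K → (∀ b ∈ T, (b - z + a).Prime) →
      ∃ U ⊆ T, U.card = k ∧ Gd U) →
    ∀ M : ℝ, 1 ≤ M → (∀ b ∈ B, ∀ b' ∈ B, b < b' → rat (b' - b) ≤ M) →
    c * (B.card : ℝ) ^ k / M ^ D ≤ (((powersetCard k B).filter Gd).card : ℝ) := by
  obtain ⟨C, hC0, A', u0, hC⟩ := cnt_upper k (by omega)
  obtain ⟨Y₁, hY₁⟩ := eventually_atTop.1 primes_23
  have hK0 : (0 : ℝ) < K := by exact_mod_cast (by omega : 0 < K)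
  obtain ⟨k', rfl⟩ : ∃ k', k = k' + 1 := ⟨k - 1, by omega⟩
  refine ⟨1 / (4 ^ (k' + 1) * (2 ^ k' * K ^ (k' + 1) * (3 * C))), 8 * K, by positivity,
    by positivity, A' * (pairs (k' + 1)).card, max (max u0 1) Y₁, ?_⟩
  intro Y hY B z hBz hBc Gd hR M hM hMr
  have hY1 : 1 ≤ Y := (le_max_right _ _).trans ((le_max_left _ _).trans hY)
  have hYu : u0 ≤ 3 * Y := by
    have := (le_max_left u0 1).trans ((le_max_left _ Y₁).trans hY)
    omega
  have hpr := hY₁ Y ((le_max_right _ _).trans hY)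
  have hY0 : (0 : ℝ) < Y := by exact_mod_cast hY1
  have hYr1 : (1 : ℝ) ≤ Y := by exact_mod_cast hY1
  obtain ⟨L, hL⟩ : ∃ L : ℝ, L = Real.log (3 * Y) := ⟨_, rfl⟩
  have hL0 : 0 < L := by
    rw [hL]
    apply Real.log_pos
    linarith
  rw [← hL] at hpr hBc
  obtain ⟨R, hRdef⟩ : ∃ R : ℝ, R = M ^ (A' * (pairs (k' + 1)).card) := ⟨_, rfl⟩
  have hR0 : 0 < R := by
    rw [hRdef]
    positivity
  obtain ⟨I, hI⟩ : ∃ I : Finset ℕ, I = Finset.Ioc Y (3 * Y) := ⟨_, rfl⟩
  have hIc : (I.card : ℝ) = 2 * Y := by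
    rw [hI, Nat.card_Ioc]
    have : 3 * Y - Y = 2 * Y := by omega
    rw [this]
    push_cast
    ring
  let P : ℕ → Finset ℕ := fun a => B.filter (fun b => (b - z + a).Prime)
  obtain ⟨G, hG⟩ : ∃ G : Finset (Finset ℕ), G = (powersetCard (k' + 1) B).filter Gd := ⟨_, rfl⟩
  have hT : ∀ a ∈ I, ((P a).card - K) ^ (k' + 1) ≤
      K ^ (k' + 1) * ((powersetCard (k' + 1) (P a)).filter Gd).card := by
    intro a ha
    rw [hI] at ha
    exact hyper (k' + 1) K (by omega) hK _ (P a)
      fun T hT hTK => hR a ha T (hT.trans (filter_subset _ _)) hTK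
        fun b hb => (mem_filter.1 (hT hb)).2
  have hEsum : ∑ a ∈ I, ((powersetCard (k' + 1) (P a)).filter Gd).card ≤
      ∑ U ∈ G, (I.filter (fun a => ∀ b ∈ U, (b - z + a).Prime)).card := by
    have h1 : ∀ a ∈ I, ((powersetCard (k' + 1) (P a)).filter Gd).card ≤
        (G.filter (fun U => ∀ b ∈ U, (b - z + a).Prime)).card := by
      intro a _
      apply card_le_card
      intro U hU
      rw [mem_filter, mem_powersetCard] at hU
      rw [mem_filter, hG, mem_filter, mem_powersetCard]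
      exact ⟨⟨⟨hU.1.1.trans (filter_subset _ _), hU.1.2⟩, hU.2⟩,
        fun b hb => (mem_filter.1 (hU.1.1 hb)).2⟩
    refine (Finset.sum_le_sum h1).trans (le_of_eq ?_)
    simp_rw [card_filter]
    exact sum_comm
  have hup : (∑ a ∈ I, (((powersetCard (k' + 1) (P a)).filter Gd).card : ℝ)) ≤
      (G.card : ℝ) * (C * (3 * Y) / L ^ (k' + 1) * R) := by
    have h1 : (∑ a ∈ I, (((powersetCard (k' + 1) (P a)).filter Gd).card : ℝ)) ≤
        ∑ U ∈ G, ((I.filter (fun a => ∀ b ∈ U, (b - z + a).Prime)).card : ℝ) := by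
      exact_mod_cast hEsum
    refine h1.trans ?_
    rw [← nsmul_eq_mul]
    apply Finset.sum_le_card_nsmul
    intro U hU
    rw [hG, mem_filter, mem_powersetCard] at hU
    have hUz : ∀ b ∈ U, z ≤ b := fun b hb => (hBz b (hU.1.1 hb)).1
    have hinj : Set.InjOn (fun b => b - z) (U : Set ℕ) := by
      intro b hb b' hb' h
      have h3 := hUz b hb
      have h4 := hUz b' hb'
      have h5 : b - z = b' - z := h
      omega
    have hc : (U.image (fun b => b - z)).card = k' + 1 := by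
      rw [card_image_of_injOn hinj, hU.1.2]
    have h2 := hC (3 * Y) hYu _ hc
    have h3 : Fac (k' + 1) A' (U.image (fun b => b - z)) ≤ R := by
      unfold Fac
      rw [hRdef]
      have h4 : M ^ (A' * (pairs (k' + 1)).card) = ∏ _p ∈ pairs (k' + 1), M ^ A' := by
        rw [prod_const, pow_mul]
      rw [h4]
      apply Finset.prod_le_prod
      · intro p _
        exact pow_nonneg (rat_nonneg _) _
      · intro p hp
        apply pow_le_pow_left₀ (rat_nonneg _)
        have h5 := (mem_filter.1 hp).2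
        obtain ⟨b, hb, hbe⟩ := mem_image.1 (en_mem hc p.1)
        obtain ⟨b', hb', hbe'⟩ := mem_image.1 (en_mem hc p.2)
        have h6 := en_mono hc h5
        have h7 := hUz b hb
        have h8 := hUz b' hb'
        have h9 : en (k' + 1) (U.image (fun b => b - z)) p.2 -
            en (k' + 1) (U.image (fun b => b - z)) p.1 = b' - b := by omega
        rw [h9]
        exact hMr b (hU.1.1 hb) b' (hU.1.1 hb') (by omega)
    have h4 : ((I.filter (fun a => ∀ b ∈ U, (b - z + a).Prime)).card : ℝ) ≤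
        (#{n ∈ Icc 1 (3 * Y) | ∀ h ∈ U.image (fun b => b - z), (n + h).Prime} : ℝ) := by
      have : (I.filter (fun a => ∀ b ∈ U, (b - z + a).Prime)) ⊆
          {n ∈ Icc 1 (3 * Y) | ∀ h ∈ U.image (fun b => b - z), (n + h).Prime} := by
        intro a ha
        rw [mem_filter, hI, mem_Ioc] at ha
        rw [mem_filter, mem_Icc]
        refine ⟨⟨by omega, ha.1.2⟩, ?_⟩
        intro x hx
        obtain ⟨b, hb, rfl⟩ := mem_image.1 hx
        rw [add_comm]
        exact ha.2 b hb
      exact_mod_cast card_le_card this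
    refine h4.trans (h2.trans ?_)
    have h5 : ((3 * Y : ℕ) : ℝ) = 3 * Y := by
      push_cast
      ring
    rw [h5, ← hL]
    exact mul_le_mul_of_nonneg_left h3 (by positivity)
  have hlow1 : (∑ a ∈ I, (((P a).card - K : ℕ) : ℝ)) ≥ (B.card : ℝ) * Y / (4 * L) := by
    have h1 : ∀ a ∈ I, ((P a).card : ℝ) - K ≤ (((P a).card - K : ℕ) : ℝ) := by
      intro a _
      have : (P a).card ≤ ((P a).card - K) + K := by omega
      have h2 : ((P a).card : ℝ) ≤ (((P a).card - K : ℕ) : ℝ) + K := by exact_mod_cast this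
      linarith
    have h2 := Finset.sum_le_sum h1
    rw [Finset.sum_sub_distrib, Finset.sum_const, nsmul_eq_mul, hIc] at h2
    have h3 : (B.card : ℝ) * (((Finset.Ioc (2 * Y) (3 * Y)).filter Nat.Prime).card : ℝ) ≤
        ∑ a ∈ I, ((P a).card : ℝ) := by
      rw [hI]
      exact_mod_cast sum_translates Y z B hBz
    have h4 : (B.card : ℝ) * ((Y : ℝ) / 2 / L) ≤ (B.card : ℝ) *
        (((Finset.Ioc (2 * Y) (3 * Y)).filter Nat.Prime).card : ℝ) :=
      mul_le_mul_of_nonneg_left hpr (Nat.cast_nonneg _)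
    have h5 : (B.card : ℝ) * ((Y : ℝ) / 2 / L) = (B.card : ℝ) * Y / (4 * L) +
        (B.card : ℝ) * Y / (4 * L) := by
      field_simp
      ring
    have h6 : 2 * (Y : ℝ) * K ≤ (B.card : ℝ) * Y / (4 * L) := by
      rw [le_div_iff₀ (by positivity)]
      have : 8 * K * L * Y ≤ B.card * Y := mul_le_mul_of_nonneg_right hBc hY0.le
      linarith
    linarith
  have hcs : (∑ a ∈ I, (((P a).card - K : ℕ) : ℝ)) ^ (k' + 1) ≤
      (I.card : ℝ) ^ k' * ∑ a ∈ I, (((P a).card - K : ℕ) : ℝ) ^ (k' + 1) := by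
    have h1 := pow_sum_div_card_le_sum_pow (s := I)
      (f := fun a => (((P a).card - K : ℕ) : ℝ)) (fun _ _ => Nat.cast_nonneg _) k'
    have hM0 : (0 : ℝ) < I.card := by
      rw [hIc]
      positivity
    rw [div_le_iff₀ (by positivity)] at h1
    rw [mul_comm]
    exact h1
  have hT2 : ∑ a ∈ I, (((P a).card - K : ℕ) : ℝ) ^ (k' + 1) ≤
      (K : ℝ) ^ (k' + 1) * ∑ a ∈ I, (((powersetCard (k' + 1) (P a)).filter Gd).card : ℝ) := by
    rw [mul_sum]
    apply Finset.sum_le_sum
    intro i hi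
    exact_mod_cast hT i hi
  have h1 : ((B.card : ℝ) * Y / (4 * L)) ^ (k' + 1) ≤
      (2 * (Y : ℝ)) ^ k' * ((K : ℝ) ^ (k' + 1) *
        ((G.card : ℝ) * (C * (3 * Y) / L ^ (k' + 1) * R))) := by
    rw [hIc] at hcs
    refine le_trans (pow_le_pow_left₀ (by positivity) hlow1 _) (hcs.trans ?_)
    apply mul_le_mul_of_nonneg_left _ (by positivity)
    refine hT2.trans ?_
    exact mul_le_mul_of_nonneg_left hup (by positivity)
  have h4 : ((B.card : ℝ) * Y / (4 * L)) ^ (k' + 1) =
      ((Y : ℝ) ^ (k' + 1) / L ^ (k' + 1)) * ((B.card : ℝ) ^ (k' + 1) / 4 ^ (k' + 1)) := by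
    rw [div_pow, mul_pow, mul_pow]
    field_simp
  have h5 : (2 * (Y : ℝ)) ^ k' * ((K : ℝ) ^ (k' + 1) *
        ((G.card : ℝ) * (C * (3 * Y) / L ^ (k' + 1) * R))) =
      ((Y : ℝ) ^ (k' + 1) / L ^ (k' + 1)) *
        (2 ^ k' * K ^ (k' + 1) * (3 * C) * R * G.card) := by
    rw [mul_pow, pow_succ (Y : ℝ) k']
    field_simp
  rw [h4, h5] at h1
  have h6 : (0 : ℝ) < (Y : ℝ) ^ (k' + 1) / L ^ (k' + 1) := by positivity
  have h7 := le_of_mul_le_mul_left h1 h6
  rw [← hG, ← hRdef, div_le_iff₀ hR0, one_div, inv_mul_le_iff₀ (by positivity)]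
  rw [div_le_iff₀ (by positivity)] at h7
  calc (B.card : ℝ) ^ (k' + 1) ≤ 2 ^ k' * K ^ (k' + 1) * (3 * C) * R * G.card * 4 ^ (k' + 1) := h7
    _ = _ := by ring

open Classical in
theorem any_set_count (hMT : MTRG) (m : ℕ) (hm : 1 ≤ m) : ∃ c C : ℝ, 0 < c ∧ 0 < C ∧ ∃ D : ℕ,
    ∀ᶠ X : ℝ in atTop, ∀ B : Finset ℕ, (∀ a ∈ B, ∀ b ∈ B, (b : ℝ) ≤ a + c * ff X) →
      C * Real.log (Real.log X) ≤ B.card →
      ∀ M : ℝ, 1 ≤ M → (∀ a ∈ B, ∀ b ∈ B, a < b → rat (b - a) ≤ M) →
      c * (B.card : ℝ) ^ (m + 1) / M ^ D ≤ (((powersetCard (m + 1) B).filter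
        (fun U => X ^ (7 / 8 : ℝ) ≤ occT (m + 1) X U)).card : ℝ) := by
  obtain ⟨K, hK, c₀, hc₀, hR⟩ := ramseyP hMT m hm
  obtain ⟨c', C₁, hc', hC₁, D, Y₀, hmain⟩ := any_count (m + 1) (by omega) K hK
  refine ⟨min (c₀ / 8) c', 5 * C₁, lt_min (by positivity) hc', by positivity, D, ?_⟩
  have hYt : Tendsto (fun X : ℝ => ⌊c₀ / 4 * ff X⌋₊) atTop atTop :=
    tendsto_nat_floor_atTop.comp (C3.ff_tendsto.const_mul_atTop (by positivity))
  filter_upwards [hR, floor_facts c₀ hc₀, floor_facts (c₀ / 4) (by positivity),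
    C3.ff_tendsto.eventually_gt_atTop 0, C3.ff_tendsto.eventually_ge_atTop (8 / c₀),
    hYt.eventually_ge_atTop Y₀, hYt.eventually_ge_atTop 1]
    with X hRX hfl hfl4 hf hf8 hY₀ hY1 B hB hBc M hM hMr
  obtain ⟨h1, h2, -, -, h5, -⟩ := hfl
  obtain ⟨-, -, h3, -, -, -⟩ := hfl4
  obtain ⟨Y, hY⟩ : ∃ Y : ℕ, Y = ⌊c₀ / 4 * ff X⌋₊ := ⟨_, rfl⟩
  rw [← hY] at hY₀ hY1 h3
  have hYle : (Y : ℝ) ≤ c₀ / 4 * ff X := by
    rw [hY]
    exact Nat.floor_le (by positivity)
  have hYge : c₀ / 8 * ff X ≤ Y := by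
    have h4 := Nat.lt_floor_add_one (c₀ / 4 * ff X)
    rw [← hY] at h4
    have h6 : 1 ≤ c₀ / 8 * ff X := by
      have := (div_le_iff₀ hc₀).1 hf8
      linarith
    linarith
  have hY0 : (0 : ℝ) < Y := by exact_mod_cast hY1
  have hBne : B.Nonempty := by
    rw [← card_pos]
    have : (0 : ℝ) < B.card := lt_of_lt_of_le (by positivity) hBc
    exact_mod_cast this
  obtain ⟨z, hz⟩ : ∃ z, z = B.min' hBne := ⟨_, rfl⟩
  have hzB : z ∈ B := by
    rw [hz]
    exact B.min'_mem hBne
  have hBz : ∀ b ∈ B, z ≤ b ∧ b ≤ z + Y := by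
    intro b hb
    refine ⟨by rw [hz]; exact B.min'_le b hb, ?_⟩
    have h4 := hB z hzB b hb
    have h7 : min (c₀ / 8) c' * ff X ≤ c₀ / 8 * ff X :=
      mul_le_mul_of_nonneg_right (min_le_left _ _) hf.le
    have h6 : (b : ℝ) ≤ ((z + Y : ℕ) : ℝ) := by
      push_cast
      linarith
    exact_mod_cast h6
  have hlog3 : Real.log (3 * Y) ≤ 5 * Real.log (Real.log X) := by
    refine le_trans (Real.log_le_log (by positivity) ?_) h5
    linarith
  have key := hmain Y hY₀ B z hBz (by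
      have : C₁ * Real.log (3 * Y) ≤ C₁ * (5 * Real.log (Real.log X)) :=
        mul_le_mul_of_nonneg_left hlog3 hC₁.le
      linarith)
    (fun U => X ^ (7 / 8 : ℝ) ≤ occT (m + 1) X U)
    (by
      intro a ha B' hB'B hB'K hB'p
      rw [mem_Ioc] at ha
      have hinj : Set.InjOn (fun b => b - z + a) (B : Set ℕ) := by
        intro b hb b' hb' h
        have h4 := hBz b hb
        have h6 := hBz b' hb'
        have h7 : b - z + a = b' - z + a := h
        omega
      obtain ⟨V, hV, hVc, v, hv, hvmin, hgood⟩ := hRX (B'.image (fun b => b - z + a)) (by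
        intro t ht
        obtain ⟨b, hb, rfl⟩ := mem_image.1 ht
        have h6 := hBz b (hB'B hb)
        refine ⟨hB'p b hb, ?_, ?_⟩
        · have e2 : (yy X : ℝ) ≤ Real.log X / 1000 := Nat.floor_le (by linarith)
          have e3 : (yy X : ℝ) < Y := by linarith
          have e4 : yy X < Y := by exact_mod_cast e3
          show yy X < b - z + a
          omega
        · have e4 : ((b - z + a : ℕ) : ℝ) ≤ ((4 * Y : ℕ) : ℝ) := by
            exact_mod_cast (by omega : b - z + a ≤ 4 * Y)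
          push_cast at e4
          show ((b - z + a : ℕ) : ℝ) ≤ c₀ * ff X
          push_cast
          linarith) (by
        rw [card_image_of_injOn (hinj.mono (by exact_mod_cast hB'B)), hB'K])
      -- the subset of `B'`
      obtain ⟨U, hU⟩ : ∃ U : Finset ℕ, U = B'.filter (fun b => b - z + a ∈ V) := ⟨_, rfl⟩
      have hUV : U.image (fun b => b - z + a) = V := by
        ext w
        rw [mem_image]
        constructor
        · rintro ⟨b, hb, rfl⟩
          rw [hU, mem_filter] at hb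
          exact hb.2
        · intro hw
          obtain ⟨b, hb, rfl⟩ := mem_image.1 (hV hw)
          refine ⟨b, ?_, rfl⟩
          rw [hU, mem_filter]
          exact ⟨hb, hw⟩
      have hUB' : U ⊆ B' := by
        rw [hU]
        exact filter_subset _ _
      have hUB : U ⊆ B := hUB'.trans hB'B
      have hUc : U.card = m + 1 := by
        rw [← hVc, ← hUV, card_image_of_injOn (hinj.mono (by exact_mod_cast hUB))]
      refine ⟨U, hUB', hUc, ?_⟩
      refine le_trans hgood ?_
      have hsub : (IdxP (m + 1) X (V.image (fun u => u - v))).card ≤ occT (m + 1) X U := by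
        unfold occT
        apply card_le_card
        intro n hn
        have hn1 : n ∈ Finset.range ⌊4 * X⌋₊ := by
          unfold IdxP at hn
          exact (mem_filter.1 hn).1
        rw [mem_IdxP] at hn
        rw [mem_filter]
        refine ⟨hn1, hn.1, hn.2.1, z + v, a + Nat.nth Nat.Prime n, ?_⟩
        have hmono : ∀ j, Nat.nth Nat.Prime n ≤ Nat.nth Nat.Prime (n + j) := fun j =>
          Nat.nth_monotone Nat.infinite_setOfPred_prime (Nat.le_add_right _ _)
        have hpat := hn.2.2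
        ext x
        rw [mem_image, mem_image]
        constructor
        · rintro ⟨j, hj, rfl⟩
          have h4 : Nat.nth Nat.Prime (n + j) - Nat.nth Nat.Prime n ∈
              V.image (fun u => u - v) := by
            rw [← hpat]
            exact mem_image_of_mem _ hj
          obtain ⟨w, hw, hwe⟩ := mem_image.1 h4
          rw [← hUV] at hw
          obtain ⟨b, hb, rfl⟩ := mem_image.1 hw
          refine ⟨b, hb, ?_⟩
          have h6 := hBz b (hUB hb)
          have h7 := hvmin (b - z + a) (by rw [← hUV]; exact mem_image_of_mem _ hb)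
          have h8 := hmono j
          show b + (a + Nat.nth Nat.Prime n) = Nat.nth Nat.Prime (n + j) + (z + v)
          omega
        · rintro ⟨b, hb, rfl⟩
          have hw : b - z + a ∈ V := by
            rw [← hUV]
            exact mem_image_of_mem _ hb
          have h4 : b - z + a - v ∈ (Finset.range (m + 1)).image
              (fun j => Nat.nth Nat.Prime (n + j) - Nat.nth Nat.Prime n) := by
            rw [hpat]
            exact mem_image_of_mem _ hw
          obtain ⟨j, hj, hje⟩ := mem_image.1 h4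
          refine ⟨j, hj, ?_⟩
          have h6 := hBz b (hUB hb)
          have h7 := hvmin _ hw
          have h8 := hmono j
          have h9 : Nat.nth Nat.Prime (n + j) - Nat.nth Nat.Prime n = b - z + a - v := hje
          show Nat.nth Nat.Prime (n + j) + (z + v) = b + (a + Nat.nth Nat.Prime n)
          omega
      exact_mod_cast hsub)
    M hM hMr
  refine le_trans ?_ key
  apply div_le_div_of_nonneg_right _ (by positivity)
  exact mul_le_mul_of_nonneg_right (min_le_right _ _) (by positivity)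

end Pool.Agent.H684R3
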