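import Mathlib

set_option autoImplicit false

/-! A graph on a finite set of integers with small independence number has many edges. -/

open Finset

namespace Pool.Agent.H684R3

/-- the good pairs of `S` -/
noncomputable def EE (Gd : ℕ → ℕ → Prop) (S : Finset ℕ) : Finset (ℕ × ℕ) := by
  classical exact (S ×ˢ S).filter (fun p => p.1 < p.2 ∧ Gd p.1 p.2)

theorem mem_EE {Gd : ℕ → ℕ → Prop} {S : Finset ℕ} {p : ℕ × ℕ} :
    p ∈ EE Gd S ↔ p.1 ∈ S ∧ p.2 ∈ S ∧ p.1 < p.2 ∧ Gd p.1 p.2 := by
  classical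
  unfold EE
  rw [mem_filter, mem_product]
  tauto

theorem turan (Gd : ℕ → ℕ → Prop) (K : ℕ) (S : Finset ℕ)
    (hR : ∀ T ⊆ S, T.card = K → ∃ a ∈ T, ∃ b ∈ T, a < b ∧ Gd a b) :
    (S.card - K) ^ 2 ≤ 2 * K * (EE Gd S).card := by
  classical
  induction hn : S.card using Nat.strong_induction_on generalizing S with
  | _ N ih =>
  subst hn
  by_cases hNK : S.card ≤ K
  · rw [Nat.sub_eq_zero_of_le hNK]
    simp
  push Not at hNK
  -- a maximal independent set
  let Ind : Finset ℕ → Prop := fun I => ∀ a ∈ I, ∀ b ∈ I, a < b → ¬ Gd a b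
  have hne : (S.powerset.filter Ind).Nonempty := ⟨∅, by
    rw [mem_filter]
    exact ⟨empty_mem_powerset _, fun a ha => absurd ha (notMem_empty a)⟩⟩
  obtain ⟨I, hI, hmax⟩ := exists_max_image _ Finset.card hne
  rw [mem_filter, mem_powerset] at hI
  obtain ⟨hIS, hInd⟩ := hI
  have hIK : I.card < K := by
    by_contra hcon
    push Not at hcon
    obtain ⟨T, hT, hTK⟩ := exists_subset_card_eq hcon
    obtain ⟨a, ha, b, hb, hab, hg⟩ := hR T (hT.trans hIS) hTK
    exact hInd a (hT ha) b (hT hb) hab hg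
  have hI1 : 1 ≤ I.card := by
    by_contra hcon
    push Not at hcon
    have hS : S.Nonempty := card_pos.1 (by omega)
    obtain ⟨s, hs⟩ := hS
    have h1 := hmax {s} (by
      rw [mem_filter, mem_powerset, singleton_subset_iff]
      refine ⟨hs, fun a ha b hb hab => ?_⟩
      rw [mem_singleton] at ha hb
      omega)
    rw [card_singleton] at h1
    omega
  -- every vertex outside has a neighbour inside
  have hnb : ∀ v ∈ S \ I, ∃ e ∈ EE Gd S, (e.1 = v ∧ e.2 ∈ I) ∨ (e.2 = v ∧ e.1 ∈ I) := by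
    intro v hv
    rw [mem_sdiff] at hv
    by_contra hcon
    push Not at hcon
    have h1 := hmax (insert v I) (by
      rw [mem_filter, mem_powerset]
      refine ⟨insert_subset hv.1 hIS, ?_⟩
      intro a ha b hb hab hg
      rw [mem_insert] at ha hb
      rcases ha with rfl | ha
      · rcases hb with rfl | hb
        · exact lt_irrefl _ hab
        · exact (hcon (a, b) (mem_EE.2 ⟨hv.1, hIS hb, hab, hg⟩)).1 rfl hb
      · rcases hb with rfl | hb
        · exact (hcon (a, b) (mem_EE.2 ⟨hIS ha, hv.1, hab, hg⟩)).2 rfl ha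
        · exact hInd a ha b hb hab hg)
    rw [card_insert_of_notMem hv.2] at h1
    omega
  choose! φ hφ1 hφ2 using hnb
  have hinj : Set.InjOn φ (S \ I : Finset ℕ) := by
    intro v hv w hw hvw
    have h1 := hφ2 v hv
    have h2 := hφ2 w hw
    rw [hvw] at h1
    rw [mem_coe, mem_sdiff] at hv hw
    rcases h1 with ⟨h3, h4⟩ | ⟨h3, h4⟩ <;> rcases h2 with ⟨h5, h6⟩ | ⟨h5, h6⟩
    · exact h3.symm.trans h5
    · rw [h3] at h6
      exact absurd h6 hv.2
    · rw [h3] at h6
      exact absurd h6 hv.2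
    · exact h3.symm.trans h5
  have hdisj : Disjoint (EE Gd (S \ I)) ((S \ I).image φ) := by
    rw [disjoint_left]
    intro e he1 he2
    rw [mem_EE] at he1
    obtain ⟨v, hv, rfl⟩ := mem_image.1 he2
    have h1 := mem_sdiff.1 he1.1
    have h2 := mem_sdiff.1 he1.2.1
    rcases hφ2 v hv with h | h
    · exact h2.2 h.2
    · exact h1.2 h.2
  have hsub : EE Gd (S \ I) ∪ (S \ I).image φ ⊆ EE Gd S := by
    intro e he
    rw [mem_union] at he
    rcases he with he | he
    · rw [mem_EE] at he ⊢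
      exact ⟨(mem_sdiff.1 he.1).1, (mem_sdiff.1 he.2.1).1, he.2.2⟩
    · obtain ⟨v, hv, rfl⟩ := mem_image.1 he
      exact hφ1 v hv
  have hcard := card_le_card hsub
  rw [card_union_of_disjoint hdisj, card_image_of_injOn hinj, card_sdiff_of_subset hIS] at hcard
  have hih := ih (S \ I).card (by rw [card_sdiff_of_subset hIS]; omega) (S \ I)
    (fun T hT => hR T (hT.trans sdiff_subset)) rfl
  rw [card_sdiff_of_subset hIS] at hih
  set N := S.card
  set w := I.card
  set e' := (EE Gd (S \ I)).card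
  set e := (EE Gd S).card
  obtain ⟨u, hu⟩ : ∃ u, N = K + u := ⟨N - K, by omega⟩
  have hu1 : N - K = u := by omega
  rw [hu1]
  by_cases huw : w ≤ u
  · obtain ⟨r, rfl⟩ : ∃ r, u = w + r := ⟨u - w, by omega⟩
    have h1 : N - w - K = r := by omega
    rw [h1] at hih
    have h2 : N - w = K + r := by omega
    rw [h2] at hcard
    nlinarith
  · push Not at huw
    have h2 : u ≤ N - w := by omega
    have h3 : u ≤ e := by omega
    nlinarith

end Pool.Agent.H684R3
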