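import Pool.Agent.H684R3.Mom
import Pool.Agent.H684R3.Turan

set_option autoImplicit false

/-! From the Ramsey property to a positive proportion of differences. -/

open Finset

namespace Pool.Agent.H684R3

open Pool.Agent.H357R2.SI

/-- the number of pairs in a set of primes with a given difference -/
theorem pairs_le {C : ℝ} {u0 : ℕ} (hC : ∀ h a u : ℕ, 0 < h → u0 ≤ u →
    (((Finset.Ioc a (a + u)).filter (fun n => n.Prime ∧ (n + h).Prime)).card : ℝ) ≤
      C * sg h ^ 2 * u / Real.log u ^ 2) (A : Finset ℕ) (B : ℕ) (hB : u0 ≤ B)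
    (hA : ∀ a ∈ A, a.Prime ∧ a ≤ B) (h : ℕ) (hh : 0 < h) :
    (((A ×ˢ A).filter (fun p => p.2 = p.1 + h)).card : ℝ) ≤
      C * sg h ^ 2 * B / Real.log B ^ 2 := by
  refine le_trans ?_ (hC h 0 B hh hB)
  rw [zero_add]
  exact_mod_cast card_le_card_of_injOn (fun p : ℕ × ℕ => p.1)
    (by
      intro p hp
      rw [mem_coe, mem_filter, mem_product] at hp
      rw [mem_coe, mem_filter, mem_Ioc]
      obtain ⟨⟨h1, h2⟩, h3⟩ := hp
      refine ⟨⟨(hA _ h1).1.pos, (hA _ h1).2⟩, (hA _ h1).1, ?_⟩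
      rw [← h3]
      exact (hA _ h2).1)
    (by
      intro p hp q hq hpq
      rw [mem_coe, mem_filter] at hp hq
      have h4 : p.1 = q.1 := hpq
      refine Prod.ext h4 ?_
      rw [hp.2, hq.2, h4])

open Classical in
theorem main_count (K : ℕ) (hK : 2 ≤ K) (δ : ℝ) (hδ : 0 < δ) : ∃ c C₁ : ℝ, 0 < c ∧ 0 < C₁ ∧
    ∃ B₀ : ℕ, ∀ B : ℕ, B₀ ≤ B → ∀ A : Finset ℕ, (∀ a ∈ A, a.Prime ∧ a ≤ B) →
    δ * B / Real.log B ≤ A.card → ∀ Gd : ℕ → Prop,
    (∀ T ⊆ A, T.card = K → ∃ a ∈ T, ∃ b ∈ T, a < b ∧ Gd (b - a)) →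
    ∀ Y : ℕ, C₁ * Real.log B ≤ Y → Y ≤ B →
    c * Y ≤ (((Finset.Icc 1 Y).filter (fun h => (∃ a ∈ A, ∃ b ∈ A, b = a + h) ∧ Gd h)).card : ℝ) := by
  obtain ⟨C, hC1, u0, hC⟩ := pair_sieve
  obtain ⟨C₄, hC41, hC4⟩ := sum_sg_four
  have hK0 : (0 : ℝ) < K := by exact_mod_cast (by omega : 0 < K)
  refine ⟨(δ ^ 2 / (16 * K * C)) ^ 2 / C₄, 4 * K / δ, by positivity, by positivity,
    max u0 3, ?_⟩
  intro B hB A hA hAδ Gd hR Y hY1 hY2
  have hB3 : 3 ≤ B := (le_max_right _ _).trans hB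
  have hBu : u0 ≤ B := (le_max_left _ _).trans hB
  have hBr : (3 : ℝ) ≤ B := by exact_mod_cast hB3
  have hlog : 0 < Real.log B := Real.log_pos (by linarith)
  have hYr : (0 : ℝ) < Y := lt_of_lt_of_le (by positivity) hY1
  have hY0 : 0 < Y := by exact_mod_cast hYr
  have hYB : (Y : ℝ) ≤ B := by exact_mod_cast hY2
  obtain ⟨M, hM⟩ : ∃ M : ℕ, M = B / Y + 1 := ⟨_, rfl⟩
  have hMr : (M : ℝ) ≤ 2 * B / Y := by
    rw [hM]
    push_cast
    have h1 : ((B / Y : ℕ) : ℝ) ≤ (B : ℝ) / Y := Nat.cast_div_le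
    have h2 : (1 : ℝ) ≤ (B : ℝ) / Y := by rwa [le_div_iff₀ hYr, one_mul]
    have h3 : 2 * (B : ℝ) / Y = (B : ℝ) / Y + (B : ℝ) / Y := by ring
    rw [h3]
    linarith
  let cell : ℕ → Finset ℕ := fun i => A.filter (fun p => p / Y = i)
  have hsum : ∑ i ∈ range M, (cell i).card = A.card := by
    have h1 : ∀ p ∈ A, p / Y ∈ range M := by
      intro p hp
      rw [mem_range, hM]
      exact Nat.lt_succ_of_le (Nat.div_le_div_right (hA p hp).2)
    exact (card_eq_sum_card_fiberwise h1).symm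
  -- Turan in each cell
  have hT : ∀ i ∈ range M, ((cell i).card - K) ^ 2 ≤
      2 * K * (EE (fun a b => Gd (b - a)) (cell i)).card := by
    intro i _
    exact turan _ K (cell i) fun T hT => hR T (hT.trans (filter_subset _ _))
  -- the set of the good differences
  obtain ⟨GG, hGG⟩ : ∃ GG : Finset ℕ, GG = (Finset.Icc 1 Y).filter
    (fun h => (∃ a ∈ A, ∃ b ∈ A, b = a + h) ∧ Gd h) := ⟨_, rfl⟩
  have hEsum : ∑ i ∈ range M, (EE (fun a b => Gd (b - a)) (cell i)).card ≤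
      ∑ h ∈ GG, ((A ×ˢ A).filter (fun p => p.2 = p.1 + h)).card := by
    have h1 : (range M).sum (fun i => (EE (fun a b => Gd (b - a)) (cell i)).card) =
        ((range M).biUnion (fun i => EE (fun a b => Gd (b - a)) (cell i))).card := by
      rw [card_biUnion]
      intro i _ j _ hij
      rw [Function.onFun, disjoint_left]
      intro p hp hq
      rw [mem_EE] at hp hq
      apply hij
      have h2 := (mem_filter.1 hp.1).2
      have h3 := (mem_filter.1 hq.1).2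
      omega
    rw [h1]
    refine (card_le_card ?_).trans (card_biUnion_le (s := GG)
      (t := fun h => (A ×ˢ A).filter (fun p => p.2 = p.1 + h)))
    intro p hp
    obtain ⟨i, _, hp⟩ := mem_biUnion.1 hp
    rw [mem_EE] at hp
    obtain ⟨h2, h3, h4, h5⟩ := hp
    have h6 := mem_filter.1 h2
    have h7 := mem_filter.1 h3
    rw [mem_biUnion]
    refine ⟨p.2 - p.1, ?_, ?_⟩
    · rw [hGG, mem_filter, mem_Icc]
      refine ⟨⟨by omega, ?_⟩, ⟨p.1, h6.1, p.2, h7.1, by omega⟩, h5⟩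
      have h8 : p.1 / Y = p.2 / Y := by rw [h6.2, h7.2]
      have h9 := Nat.div_add_mod p.1 Y
      have h10 := Nat.div_add_mod p.2 Y
      have h11 := Nat.mod_lt p.2 hY0
      rw [h8] at h9
      omega
    · rw [mem_filter, mem_product]
      exact ⟨⟨h6.1, h7.1⟩, by omega⟩
  -- upper bound
  have hup : (∑ i ∈ range M, ((EE (fun a b => Gd (b - a)) (cell i)).card : ℝ)) ≤
      (C * B / Real.log B ^ 2) * ∑ h ∈ GG, sg h ^ 2 := by
    have h1 : (∑ i ∈ range M, ((EE (fun a b => Gd (b - a)) (cell i)).card : ℝ)) ≤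
        ∑ h ∈ GG, (((A ×ˢ A).filter (fun p => p.2 = p.1 + h)).card : ℝ) := by
      exact_mod_cast hEsum
    refine h1.trans ?_
    rw [mul_sum]
    apply Finset.sum_le_sum
    intro h hh
    rw [hGG, mem_filter, mem_Icc] at hh
    refine (pairs_le hC A B hBu hA h (by omega)).trans (le_of_eq ?_)
    ring
  -- lower bound
  have hlow1 : (∑ i ∈ range M, (((cell i).card - K : ℕ) : ℝ)) ≥ δ / 2 * (B / Real.log B) := by
    have h1 : ∀ i ∈ range M, ((cell i).card : ℝ) - K ≤ (((cell i).card - K : ℕ) : ℝ) := by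
      intro i _
      have : (cell i).card ≤ ((cell i).card - K) + K := by omega
      have h2 : ((cell i).card : ℝ) ≤ (((cell i).card - K : ℕ) : ℝ) + K := by exact_mod_cast this
      linarith
    have h2 := Finset.sum_le_sum h1
    rw [Finset.sum_sub_distrib, Finset.sum_const, card_range, nsmul_eq_mul] at h2
    have h3 : (∑ i ∈ range M, ((cell i).card : ℝ)) = A.card := by exact_mod_cast hsum
    rw [h3] at h2
    have h4 : (M : ℝ) * K ≤ δ / 2 * (B / Real.log B) := by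
      have h5 : 4 * K / δ * Real.log B ≤ Y := hY1
      have h6 : (M : ℝ) * K ≤ 2 * B / Y * K := mul_le_mul_of_nonneg_right hMr hK0.le
      refine h6.trans ?_
      rw [div_mul_eq_mul_div, div_le_iff₀ hYr]
      have h7 : δ / 2 * (B / Real.log B) * (4 * K / δ * Real.log B) = 2 * B * K := by
        field_simp
        ring
      rw [← h7]
      exact mul_le_mul_of_nonneg_left h5 (by positivity)
    have h8 : δ * B / Real.log B = δ / 2 * (B / Real.log B) + δ / 2 * (B / Real.log B) := by ring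
    rw [h8] at hAδ
    linarith
  have hcs : (∑ i ∈ range M, (((cell i).card - K : ℕ) : ℝ)) ^ 2 ≤
      M * ∑ i ∈ range M, (((cell i).card - K : ℕ) : ℝ) ^ 2 := by
    have := sq_sum_le_card_mul_sum_sq (s := range M) (f := fun i => (((cell i).card - K : ℕ) : ℝ))
    rwa [card_range] at this
  have hT2 : ∑ i ∈ range M, (((cell i).card - K : ℕ) : ℝ) ^ 2 ≤
      2 * K * ∑ i ∈ range M, ((EE (fun a b => Gd (b - a)) (cell i)).card : ℝ) := by
    rw [mul_sum]
    apply Finset.sum_le_sum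
    intro i hi
    exact_mod_cast hT i hi
  obtain ⟨E, hE⟩ : ∃ E : ℝ, E = ∑ i ∈ range M, ((EE (fun a b => Gd (b - a)) (cell i)).card : ℝ) :=
    ⟨_, rfl⟩
  rw [← hE] at hup hT2
  obtain ⟨S2, hS2⟩ : ∃ S2 : ℝ, S2 = ∑ h ∈ GG, sg h ^ 2 := ⟨_, rfl⟩
  rw [← hS2] at hup
  have hE0 : 0 ≤ E := by
    rw [hE]
    exact Finset.sum_nonneg fun _ _ => Nat.cast_nonneg _
  have hS20 : 0 ≤ S2 := by
    rw [hS2]
    exact Finset.sum_nonneg fun _ _ => sq_nonneg _
  have hkey : δ ^ 2 / (16 * K * C) * Y ≤ S2 := by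
    have h1 : (δ / 2 * (B / Real.log B)) ^ 2 ≤ M * (2 * K * E) := by
      refine le_trans ?_ (hcs.trans (mul_le_mul_of_nonneg_left hT2 (Nat.cast_nonneg _)))
      exact pow_le_pow_left₀ (by positivity) hlow1 2
    have h2 : (M : ℝ) * (2 * K * E) ≤ 2 * B / Y * (2 * K * ((C * B / Real.log B ^ 2) * S2)) := by
      apply mul_le_mul hMr _ (by positivity) (by positivity)
      exact mul_le_mul_of_nonneg_left hup (by positivity)
    have h3 := h1.trans h2
    have h4 : (δ / 2 * (B / Real.log B)) ^ 2 = (B ^ 2 / Real.log B ^ 2) * (δ ^ 2 / 4) := by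
      field_simp
      norm_num
    have h5 : 2 * B / Y * (2 * K * ((C * B / Real.log B ^ 2) * S2)) =
        ((B : ℝ) ^ 2 / Real.log B ^ 2) * (4 * K * C * S2 / Y) := by
      field_simp
      ring
    rw [h4, h5] at h3
    have h6 : (0 : ℝ) < (B : ℝ) ^ 2 / Real.log B ^ 2 := by positivity
    have h7 := le_of_mul_le_mul_left h3 h6
    rw [le_div_iff₀ hYr] at h7
    rw [div_mul_eq_mul_div, div_le_iff₀ (by positivity)]
    linarith
  have hfin : S2 ^ 2 ≤ GG.card * (C₄ * Y) := by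
    have h1 : S2 ^ 2 ≤ (∑ h ∈ GG, (1 : ℝ) ^ 2) * ∑ h ∈ GG, (sg h ^ 2) ^ 2 := by
      have h2 : S2 = ∑ h ∈ GG, 1 * sg h ^ 2 := by
        rw [hS2]
        simp
      rw [h2]
      exact Finset.sum_mul_sq_le_sq_mul_sq _ _ _
    have h3 : ∑ h ∈ GG, (1 : ℝ) ^ 2 = GG.card := by simp
    rw [h3] at h1
    refine h1.trans (mul_le_mul_of_nonneg_left ?_ (Nat.cast_nonneg _))
    calc ∑ h ∈ GG, (sg h ^ 2) ^ 2 = ∑ h ∈ GG, sg h ^ 4 := by
          apply Finset.sum_congr rfl
          intro h _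
          ring
      _ ≤ ∑ h ∈ Finset.Icc 1 Y, sg h ^ 4 := by
          apply Finset.sum_le_sum_of_subset_of_nonneg
          · rw [hGG]
            exact filter_subset _ _
          · intro h _ _
            positivity
      _ ≤ C₄ * Y := hC4 Y
  have hc2 : (δ ^ 2 / (16 * K * C) * Y) ^ 2 ≤ GG.card * (C₄ * Y) :=
    (pow_le_pow_left₀ (by positivity) hkey 2).trans hfin
  have h8 : (δ ^ 2 / (16 * K * C)) ^ 2 / C₄ * Y ≤ GG.card := by
    have h9 : (δ ^ 2 / (16 * K * C) * Y) ^ 2 =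
        ((δ ^ 2 / (16 * K * C)) ^ 2 / C₄ * Y) * (C₄ * Y) := by
      field_simp
    rw [h9] at hc2
    exact le_of_mul_le_mul_right hc2 (by positivity)
  rw [hGG] at h8
  exact h8

end Pool.Agent.H684R3
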