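import Pool.Agent.H684R3.Hyper
import Pool.Agent.H312R2.Pop

set_option autoImplicit false

/-! From the Ramsey property to a positive proportion of patterns. -/

open Finset

namespace Pool.Agent.H684R3

open Pool.Agent.H312R2 (base mem_base Fac Fac_sum Fac_pow Fac_nonneg cnt_upper)

open Classical in
/-- the good `k`-subsets -/
noncomputable def GU (k : ℕ) (Gd : Finset ℕ → Prop) (S : Finset ℕ) : Finset (Finset ℕ) :=
  (powersetCard k S).filter (fun U => ∃ a ∈ U, (∀ u ∈ U, a ≤ u) ∧ Gd (U.image (fun u => u - a)))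

open Classical in
theorem mem_GU {k : ℕ} {Gd : Finset ℕ → Prop} {S U : Finset ℕ} : U ∈ GU k Gd S ↔
    (U ⊆ S ∧ U.card = k) ∧ ∃ a ∈ U, (∀ u ∈ U, a ≤ u) ∧ Gd (U.image (fun u => u - a)) := by
  unfold GU
  rw [mem_filter, mem_powersetCard]

open Classical in
theorem main_countP (k : ℕ) (hk : 2 ≤ k) (K : ℕ) (hK : k ≤ K) :
    ∃ c C₁ : ℝ, 0 < c ∧ 0 < C₁ ∧
    ∃ B₀ : ℕ, ∀ δ : ℝ, 0 < δ → ∀ B : ℕ, B₀ ≤ B → ∀ A : Finset ℕ, (∀ a ∈ A, a.Prime ∧ a ≤ B) →
    δ * B / Real.log B ≤ A.card → ∀ Gd : Finset ℕ → Prop,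
    (∀ T ⊆ A, T.card = K → ∃ U ⊆ T, U.card = k ∧ ∃ a ∈ U, (∀ u ∈ U, a ≤ u) ∧
      Gd (U.image (fun u => u - a))) →
    ∀ Y : ℕ, C₁ / δ * Real.log B ≤ Y → Y ≤ B →
    c * δ ^ (2 * k) * (Y : ℝ) ^ (k - 1) ≤ (((base k Y).filter
      (fun H => (∃ a, ∀ h ∈ H, a + h ∈ A) ∧ Gd H)).card : ℝ) := by
  obtain ⟨C, hC0, A', u0, hC⟩ := cnt_upper k (by omega)
  obtain ⟨C₄, hC40, hC4⟩ := Fac_sum k hk (A' * 2)
  have hK0 : (0 : ℝ) < K := by exact_mod_cast (by omega : 0 < K)
  obtain ⟨k', rfl⟩ : ∃ k', k = k' + 1 := ⟨k - 1, by omega⟩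
  rw [Nat.add_sub_cancel] at hC4
  rw [Nat.add_sub_cancel]
  refine ⟨((1 / 2) ^ (k' + 1) / (2 ^ k' * K ^ (k' + 1) * C)) ^ 2 / (C₄ * 2 ^ k'), 4 * K,
    by positivity, by positivity, max u0 3, ?_⟩
  intro δ hδ B hB A hA hAδ Gd hR Y hY1 hY2
  obtain ⟨c', hc'⟩ : ∃ c' : ℝ, c' = (δ / 2) ^ (k' + 1) / (2 ^ k' * K ^ (k' + 1) * C) := ⟨_, rfl⟩
  have hc'0 : 0 < c' := by
    rw [hc']
    positivity
  have hB3 : 3 ≤ B := (le_max_right _ _).trans hB
  have hBu : u0 ≤ B := (le_max_left _ _).trans hB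
  have hBr : (3 : ℝ) ≤ B := by exact_mod_cast hB3
  have hlog : 0 < Real.log B := Real.log_pos (by linarith)
  have hYr : (0 : ℝ) < Y := lt_of_lt_of_le (by positivity) hY1
  have hY0 : 0 < Y := by exact_mod_cast hYr
  have hYB : (Y : ℝ) ≤ B := by exact_mod_cast hY2
  obtain ⟨M, hM⟩ : ∃ M : ℕ, M = B / Y + 1 := ⟨_, rfl⟩
  have hMr : (M : ℝ) ≤ 2 * B / Y := by
    rw [hM]
    push_cast
    have h1 : ((B / Y : ℕ) : ℝ) ≤ (B : ℝ) / Y := Nat.cast_div_le
    have h2 : (1 : ℝ) ≤ (B : ℝ) / Y := by rwa [le_div_iff₀ hYr, one_mul]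
    have h3 : 2 * (B : ℝ) / Y = (B : ℝ) / Y + (B : ℝ) / Y := by ring
    rw [h3]
    linarith
  let cell : ℕ → Finset ℕ := fun i => A.filter (fun p => p / Y = i)
  have hsum : ∑ i ∈ range M, (cell i).card = A.card := by
    have h1 : ∀ p ∈ A, p / Y ∈ range M := by
      intro p hp
      rw [mem_range, hM]
      exact Nat.lt_succ_of_le (Nat.div_le_div_right (hA p hp).2)
    exact (card_eq_sum_card_fiberwise h1).symm
  -- the hypergraph bound in each cell
  have hT : ∀ i ∈ range M, ((cell i).card - K) ^ (k' + 1) ≤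
      K ^ (k' + 1) * (GU (k' + 1) Gd (cell i)).card := by
    intro i _
    have h := hyper (k' + 1) K (by omega) hK _ (cell i)
      fun T hT => hR T (hT.trans (filter_subset _ _))
    unfold GU
    convert h
  -- the set of the good patterns
  obtain ⟨GG, hGG⟩ : ∃ GG : Finset (Finset ℕ), GG = (base (k' + 1) Y).filter
    (fun H => (∃ a, ∀ h ∈ H, a + h ∈ A) ∧ Gd H) := ⟨_, rfl⟩
  obtain ⟨P, hP⟩ : ∃ P : Finset ℕ → Finset ℕ, P = fun H => (Finset.Icc 1 B).filter
    (fun a => ∀ h ∈ H, (a + h).Prime) := ⟨_, rfl⟩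
  have hEsum : ∑ i ∈ range M, (GU (k' + 1) Gd (cell i)).card ≤ ∑ H ∈ GG, (P H).card := by
    have h1 : (range M).sum (fun i => (GU (k' + 1) Gd (cell i)).card) =
        ((range M).biUnion (fun i => GU (k' + 1) Gd (cell i))).card := by
      rw [card_biUnion]
      intro i _ j _ hij
      rw [Function.onFun, disjoint_left]
      intro U hU hU'
      rw [mem_GU] at hU hU'
      obtain ⟨a, ha, -⟩ := hU.2
      apply hij
      have h2 := (mem_filter.1 (hU.1.1 ha)).2
      have h3 := (mem_filter.1 (hU'.1.1 ha)).2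
      omega
    rw [h1]
    have h2 : (range M).biUnion (fun i => GU (k' + 1) Gd (cell i)) ⊆
        GG.biUnion (fun H => (P H).image (fun a => H.image (fun h => a + h))) := by
      intro U hU
      obtain ⟨i, _, hU⟩ := mem_biUnion.1 hU
      rw [mem_GU] at hU
      obtain ⟨⟨hU1, hU2⟩, a, ha, hmin, hg⟩ := hU
      have hUA : ∀ u ∈ U, u ∈ A := fun u hu => (mem_filter.1 (hU1 hu)).1
      have hUY : ∀ u ∈ U, u - a ≤ Y := by
        intro u hu
        have h4 := (mem_filter.1 (hU1 hu)).2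
        have h5 := (mem_filter.1 (hU1 ha)).2
        have h8 : a / Y = u / Y := by rw [h4, h5]
        have h9 := Nat.div_add_mod a Y
        have h10 := Nat.div_add_mod u Y
        have h11 := Nat.mod_lt u hY0
        rw [h8] at h9
        omega
      rw [mem_biUnion]
      refine ⟨U.image (fun u => u - a), ?_, ?_⟩
      · rw [hGG, mem_filter, mem_base]
        refine ⟨⟨⟨?_, ?_⟩, ?_⟩, ⟨a, ?_⟩, hg⟩
        · intro x hx
          obtain ⟨u, hu, rfl⟩ := mem_image.1 hx
          rw [mem_range]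
          have := hUY u hu
          omega
        · rw [card_image_of_injOn, hU2]
          intro u hu v hv huv
          have h3 := hmin u hu
          have h4 := hmin v hv
          have h5 : u - a = v - a := huv
          omega
        · rw [mem_image]
          exact ⟨a, ha, by omega⟩
        · intro x hx
          obtain ⟨u, hu, rfl⟩ := mem_image.1 hx
          have h3 := hmin u hu
          have h4 : a + (u - a) = u := by omega
          rw [h4]
          exact hUA u hu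
      · rw [mem_image]
        refine ⟨a, ?_, ?_⟩
        · rw [hP, mem_filter, mem_Icc]
          refine ⟨⟨(hA a (hUA a ha)).1.pos, (hA a (hUA a ha)).2⟩, ?_⟩
          intro x hx
          obtain ⟨u, hu, rfl⟩ := mem_image.1 hx
          have h3 := hmin u hu
          have h4 : a + (u - a) = u := by omega
          rw [h4]
          exact (hA u (hUA u hu)).1
        · rw [image_image]
          ext x
          rw [mem_image]
          constructor
          · rintro ⟨u, hu, rfl⟩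
            have h3 := hmin u hu
            have h4 : a + (u - a) = u := by omega
            show a + (u - a) ∈ U
            rw [h4]
            exact hu
          · intro hx
            refine ⟨x, hx, ?_⟩
            have h3 := hmin x hx
            show a + (x - a) = x
            omega
    refine (card_le_card h2).trans (card_biUnion_le.trans ?_)
    apply Finset.sum_le_sum
    intro H _
    exact card_image_le
  -- upper bound
  have hup : (∑ i ∈ range M, ((GU (k' + 1) Gd (cell i)).card : ℝ)) ≤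
      (C * B / Real.log B ^ (k' + 1)) * ∑ H ∈ GG, Fac (k' + 1) A' H := by
    have h1 : (∑ i ∈ range M, ((GU (k' + 1) Gd (cell i)).card : ℝ)) ≤
        ∑ H ∈ GG, ((P H).card : ℝ) := by
      exact_mod_cast hEsum
    refine h1.trans ?_
    rw [mul_sum]
    apply Finset.sum_le_sum
    intro H hH
    rw [hGG, mem_filter, mem_base] at hH
    rw [hP]
    refine le_trans (le_of_eq ?_) (hC B hBu H hH.1.1.2)
    congr 2
  -- lower bound
  have hlow1 : (∑ i ∈ range M, (((cell i).card - K : ℕ) : ℝ)) ≥ δ / 2 * (B / Real.log B) := by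
    have h1 : ∀ i ∈ range M, ((cell i).card : ℝ) - K ≤ (((cell i).card - K : ℕ) : ℝ) := by
      intro i _
      have : (cell i).card ≤ ((cell i).card - K) + K := by omega
      have h2 : ((cell i).card : ℝ) ≤ (((cell i).card - K : ℕ) : ℝ) + K := by exact_mod_cast this
      linarith
    have h2 := Finset.sum_le_sum h1
    rw [Finset.sum_sub_distrib, Finset.sum_const, card_range, nsmul_eq_mul] at h2
    have h3 : (∑ i ∈ range M, ((cell i).card : ℝ)) = A.card := by exact_mod_cast hsum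
    rw [h3] at h2
    have h4 : (M : ℝ) * K ≤ δ / 2 * (B / Real.log B) := by
      have h5 : 4 * K / δ * Real.log B ≤ Y := hY1
      have h6 : (M : ℝ) * K ≤ 2 * B / Y * K := mul_le_mul_of_nonneg_right hMr hK0.le
      refine h6.trans ?_
      rw [div_mul_eq_mul_div, div_le_iff₀ hYr]
      have h7 : δ / 2 * (B / Real.log B) * (4 * K / δ * Real.log B) = 2 * B * K := by
        field_simp
        ring
      rw [← h7]
      exact mul_le_mul_of_nonneg_left h5 (by positivity)
    have h8 : δ * B / Real.log B = δ / 2 * (B / Real.log B) + δ / 2 * (B / Real.log B) := by ring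
    rw [h8] at hAδ
    linarith
  have hcs : (∑ i ∈ range M, (((cell i).card - K : ℕ) : ℝ)) ^ (k' + 1) ≤
      (M : ℝ) ^ k' * ∑ i ∈ range M, (((cell i).card - K : ℕ) : ℝ) ^ (k' + 1) := by
    have h1 := pow_sum_div_card_le_sum_pow (s := range M)
      (f := fun i => (((cell i).card - K : ℕ) : ℝ)) (fun _ _ => Nat.cast_nonneg _) k'
    rw [card_range] at h1
    have hM0 : (0 : ℝ) < M := by
      rw [hM]
      positivity
    rw [div_le_iff₀ (by positivity)] at h1
    rw [mul_comm]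
    exact h1
  have hT2 : ∑ i ∈ range M, (((cell i).card - K : ℕ) : ℝ) ^ (k' + 1) ≤
      (K : ℝ) ^ (k' + 1) * ∑ i ∈ range M, ((GU (k' + 1) Gd (cell i)).card : ℝ) := by
    rw [mul_sum]
    apply Finset.sum_le_sum
    intro i hi
    exact_mod_cast hT i hi
  obtain ⟨E, hE⟩ : ∃ E : ℝ, E = ∑ i ∈ range M, ((GU (k' + 1) Gd (cell i)).card : ℝ) :=
    ⟨_, rfl⟩
  rw [← hE] at hup hT2
  obtain ⟨S2, hS2⟩ : ∃ S2 : ℝ, S2 = ∑ H ∈ GG, Fac (k' + 1) A' H := ⟨_, rfl⟩
  rw [← hS2] at hup
  have hE0 : 0 ≤ E := by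
    rw [hE]
    exact Finset.sum_nonneg fun _ _ => Nat.cast_nonneg _
  have hS20 : 0 ≤ S2 := by
    rw [hS2]
    exact Finset.sum_nonneg fun _ _ => Fac_nonneg _ _ _
  have hB0 : (0 : ℝ) < B := by linarith
  have hkey : c' * (Y : ℝ) ^ k' ≤ S2 := by
    have h1 : (δ / 2 * (B / Real.log B)) ^ (k' + 1) ≤ (M : ℝ) ^ k' * ((K : ℝ) ^ (k' + 1) * E) := by
      refine le_trans ?_ (hcs.trans (mul_le_mul_of_nonneg_left hT2 (by positivity)))
      exact pow_le_pow_left₀ (by positivity) hlow1 _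
    have h2 : (M : ℝ) ^ k' * ((K : ℝ) ^ (k' + 1) * E) ≤
        (2 * B / Y) ^ k' * ((K : ℝ) ^ (k' + 1) * ((C * B / Real.log B ^ (k' + 1)) * S2)) := by
      apply mul_le_mul (pow_le_pow_left₀ (Nat.cast_nonneg _) hMr _) _ (by positivity)
        (by positivity)
      exact mul_le_mul_of_nonneg_left hup (by positivity)
    have h3 := h1.trans h2
    have h4 : (δ / 2 * (B / Real.log B)) ^ (k' + 1) =
        (B ^ (k' + 1) / Real.log B ^ (k' + 1)) * (δ / 2) ^ (k' + 1) := by
      rw [mul_pow, div_pow]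
      ring
    have h5 : (2 * (B : ℝ) / Y) ^ k' *
        ((K : ℝ) ^ (k' + 1) * ((C * B / Real.log B ^ (k' + 1)) * S2)) =
        ((B : ℝ) ^ (k' + 1) / Real.log B ^ (k' + 1)) *
          (2 ^ k' * K ^ (k' + 1) * C * S2 / (Y : ℝ) ^ k') := by
      rw [div_pow, mul_pow, pow_succ (B : ℝ) k']
      field_simp
    rw [h4, h5] at h3
    have h6 : (0 : ℝ) < (B : ℝ) ^ (k' + 1) / Real.log B ^ (k' + 1) := by positivity
    have h7 := le_of_mul_le_mul_left h3 h6
    rw [le_div_iff₀ (by positivity)] at h7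
    rw [hc', div_mul_eq_mul_div, div_le_iff₀ (by positivity)]
    linarith
  have hfin : S2 ^ 2 ≤ GG.card * (C₄ * (2 ^ k' * (Y : ℝ) ^ k')) := by
    have h1 : S2 ^ 2 ≤ (∑ H ∈ GG, (1 : ℝ) ^ 2) * ∑ H ∈ GG, (Fac (k' + 1) A' H) ^ 2 := by
      have h2 : S2 = ∑ H ∈ GG, 1 * Fac (k' + 1) A' H := by
        rw [hS2]
        simp
      rw [h2]
      exact Finset.sum_mul_sq_le_sq_mul_sq _ _ _
    have h3 : ∑ H ∈ GG, (1 : ℝ) ^ 2 = GG.card := by simp
    rw [h3] at h1
    refine h1.trans (mul_le_mul_of_nonneg_left ?_ (Nat.cast_nonneg _))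
    calc ∑ H ∈ GG, (Fac (k' + 1) A' H) ^ 2 = ∑ H ∈ GG, Fac (k' + 1) (A' * 2) H := by
          apply Finset.sum_congr rfl
          intro H _
          exact Fac_pow _ _ _ _
      _ ≤ ∑ H ∈ base (k' + 1) Y, Fac (k' + 1) (A' * 2) H := by
          apply Finset.sum_le_sum_of_subset_of_nonneg
          · rw [hGG]
            exact filter_subset _ _
          · intro H _ _
            exact Fac_nonneg _ _ _
      _ ≤ C₄ * ((Y + 1) ^ k' : ℕ) := hC4 Y
      _ ≤ C₄ * (2 ^ k' * (Y : ℝ) ^ k') := by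
          apply mul_le_mul_of_nonneg_left _ hC40.le
          rw [← mul_pow]
          push_cast
          apply pow_le_pow_left₀ (by positivity)
          have : (1 : ℝ) ≤ Y := by exact_mod_cast hY0
          linarith
  have hc2 : (c' * (Y : ℝ) ^ k') ^ 2 ≤ GG.card * (C₄ * (2 ^ k' * (Y : ℝ) ^ k')) :=
    (pow_le_pow_left₀ (by positivity) hkey 2).trans hfin
  have h8 : c' ^ 2 / (C₄ * 2 ^ k') * (Y : ℝ) ^ k' ≤ GG.card := by
    have h9 : (c' * (Y : ℝ) ^ k') ^ 2 =
        (c' ^ 2 / (C₄ * 2 ^ k') * (Y : ℝ) ^ k') * (C₄ * (2 ^ k' * (Y : ℝ) ^ k')) := by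
      field_simp
    rw [h9] at hc2
    exact le_of_mul_le_mul_right hc2 (by positivity)
  rw [hGG] at h8
  have h9 : ((1 / 2 : ℝ) ^ (k' + 1) / (2 ^ k' * K ^ (k' + 1) * C)) ^ 2 / (C₄ * 2 ^ k') *
      δ ^ (2 * (k' + 1)) = c' ^ 2 / (C₄ * 2 ^ k') := by
    rw [hc']
    have h10 : δ ^ (2 * (k' + 1)) = (δ ^ (k' + 1)) ^ 2 := by
      rw [← pow_mul]
      ring
    have h11 : (δ / 2) ^ (k' + 1) = (1 / 2 : ℝ) ^ (k' + 1) * δ ^ (k' + 1) := by
      rw [← mul_pow]
      ring
    rw [h10, h11]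
    ring
  rw [h9]
  exact h8

end Pool.Agent.H684R3
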