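import Pool.Agent.H312R2.RG.C3

set_option autoImplicit false

/-! The Maynard-Tao theorem inside the record windows (TEAM RG) as a Ramsey property of the patterns of
consecutive primes. -/

open Finset Filter Topology

namespace Pool.Agent.H684R3

open Pool.Agent.H378R2 (yy)
open Pool.Agent.H256R2.SC (ff t1 t2 t3 t4)
open Pool.Agent.H312R2.RG

/-- the indices `n` with `X < p_n`, `p_(n+k-1) ≤ 4 X` and `{p_(n+j) - p_n : j < k} = H` -/
noncomputable def IdxP (k : ℕ) (X : ℝ) (H : Finset ℕ) : Finset ℕ :=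
  by classical exact (Finset.range ⌊4 * X⌋₊).filter (fun n => X < Nat.nth Nat.Prime n ∧
    (Nat.nth Nat.Prime (n + (k - 1)) : ℝ) ≤ 4 * X ∧
    (Finset.range k).image (fun j => Nat.nth Nat.Prime (n + j) - Nat.nth Nat.Prime n) = H)

theorem mem_IdxP {k : ℕ} {X : ℝ} {H : Finset ℕ} {n : ℕ} : n ∈ IdxP k X H ↔
    X < Nat.nth Nat.Prime n ∧ (Nat.nth Nat.Prime (n + (k - 1)) : ℝ) ≤ 4 * X ∧
    (Finset.range k).image (fun j => Nat.nth Nat.Prime (n + j) - Nat.nth Nat.Prime n) = H := by
  classical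
  unfold IdxP
  rw [mem_filter, mem_range]
  constructor
  · exact fun h => h.2
  · intro h
    refine ⟨?_, h⟩
    have h1 := Nat.add_two_le_nth_prime (n + (k - 1))
    have h2 : n + (k - 1) + 2 ≤ ⌊4 * X⌋₊ := h1.trans (Nat.le_floor h.2.1)
    omega

/-- `H` is the pattern of at least `X^(7/8)` blocks of `k` consecutive primes -/
def GoodPat (k : ℕ) (X : ℝ) (H : Finset ℕ) : Prop := X ^ (7 / 8 : ℝ) ≤ ((IdxP k X H).card : ℝ)

theorem poly_bound_pow (c : ℝ) (hc : 0 < c) (k : ℕ) : ∀ᶠ X : ℝ in atTop,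
    (c * ff X + 1) ^ k * X ^ (7 / 8 : ℝ) ≤ X ^ (9 / 10 : ℝ) := by
  have h1 := (isLittleO_log_rpow_rpow_atTop (s := 1 / 40) ((4 * k : ℕ) : ℝ)
    (show (0 : ℝ) < 1 / 40 by norm_num)).def (show (0 : ℝ) < 1 / (c + 1) ^ k by positivity)
  filter_upwards [h1, C3.ff_upper, t1.eventually_ge_atTop 1,
    eventually_gt_atTop (1 : ℝ), C3.ff_tendsto.eventually_gt_atTop 0] with X h1 h3 hl h4 h5
  have hX0 : (0 : ℝ) < X := by linarith
  have hl0 : 0 < Real.log X := by linarith
  rw [Real.norm_of_nonneg (by positivity), Real.norm_of_nonneg (by positivity),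
    Real.rpow_natCast, div_mul_eq_mul_div, one_mul, le_div_iff₀ (by positivity)] at h1
  have h7 : (1 : ℝ) ≤ Real.log X ^ 4 := one_le_pow₀ hl
  have h8 : c * ff X + 1 ≤ (c + 1) * Real.log X ^ 4 := by nlinarith
  have h9 : 0 ≤ c * ff X + 1 := by positivity
  calc (c * ff X + 1) ^ k * X ^ (7 / 8 : ℝ) ≤ ((c + 1) * Real.log X ^ 4) ^ k *
        X ^ (7 / 8 : ℝ) := by
        apply mul_le_mul_of_nonneg_right (pow_le_pow_left₀ h9 h8 k) (by positivity)
    _ = (Real.log X ^ (4 * k) * (c + 1) ^ k) * X ^ (7 / 8 : ℝ) := by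
        rw [mul_pow, pow_mul]
        ring
    _ ≤ X ^ (1 / 40 : ℝ) * X ^ (7 / 8 : ℝ) := by
        apply mul_le_mul_of_nonneg_right h1 (by positivity)
    _ = X ^ (9 / 10 : ℝ) := by
        rw [← Real.rpow_add hX0]
        norm_num

open Classical in
theorem ramseyP (hMT : MTRG) (m : ℕ) (hm : 1 ≤ m) : ∃ K : ℕ, m + 1 ≤ K ∧ ∃ c : ℝ, 0 < c ∧
    ∀ᶠ X : ℝ in atTop,
    ∀ T : Finset ℕ, (∀ t ∈ T, t.Prime ∧ yy X < t ∧ (t : ℝ) ≤ c * ff X) → T.card = K →
      ∃ U ⊆ T, U.card = m + 1 ∧ ∃ a ∈ U, (∀ u ∈ U, a ≤ u) ∧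
        GoodPat (m + 1) X (U.image (fun u => u - a)) := by
  obtain ⟨K, hK, c, hc, X0, h⟩ := hMT (m + 1)
  refine ⟨K, hK, c, hc, ?_⟩
  filter_upwards [eventually_ge_atTop X0, C3.ff_small c hc, poly_bound_pow c hc (m + 2),
    eventually_gt_atTop (0 : ℝ), C3.ff_tendsto.eventually_gt_atTop 0] with X hX hs hp hX0 hf T hT hTK
  by_contra hcon
  push Not at hcon
  obtain ⟨D, hD⟩ : ∃ D : ℕ, D = ⌊c * ff X⌋₊ := ⟨_, rfl⟩
  have hcf : 0 ≤ c * ff X := by positivity
  have hDle : (D : ℝ) ≤ c * ff X := by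
    rw [hD]
    exact Nat.floor_le hcf
  let bad : Finset ℕ := ((powersetCard (m + 1) (Finset.range (D + 1))) ×ˢ
    (Finset.range (D + 1))).biUnion
    (fun e => if GoodPat (m + 1) X e.1 then ∅ else
      (IdxP (m + 1) X e.1).image (fun n => Nat.nth Nat.Prime n - e.2))
  have hbad : (bad.card : ℝ) ≤ X ^ (9 / 10 : ℝ) := by
    have h1 : (bad.card : ℝ) ≤ ∑ e ∈ (powersetCard (m + 1) (Finset.range (D + 1))) ×ˢ
        (Finset.range (D + 1)), X ^ (7 / 8 : ℝ) := by
      have h2 : bad.card ≤ _ := card_biUnion_le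
      calc (bad.card : ℝ) ≤ ((∑ e ∈ (powersetCard (m + 1) (Finset.range (D + 1))) ×ˢ
          (Finset.range (D + 1)),
          (if GoodPat (m + 1) X e.1 then (∅ : Finset ℕ) else
            (IdxP (m + 1) X e.1).image (fun n => Nat.nth Nat.Prime n - e.2)).card : ℕ) : ℝ) := by
            exact_mod_cast h2
        _ ≤ _ := by
            push_cast
            apply Finset.sum_le_sum
            intro e _
            split_ifs with he
            · simp only [card_empty, Nat.cast_zero]
              positivity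
            · have h3 : (((IdxP (m + 1) X e.1).image
                  (fun n => Nat.nth Nat.Prime n - e.2)).card : ℝ) ≤ (IdxP (m + 1) X e.1).card := by
                exact_mod_cast card_image_le
              have h4 : ((IdxP (m + 1) X e.1).card : ℝ) < X ^ (7 / 8 : ℝ) := not_le.1 he
              linarith
    rw [sum_const, card_product, card_range, card_powersetCard, card_range, nsmul_eq_mul] at h1
    refine h1.trans (le_trans ?_ hp)
    apply mul_le_mul_of_nonneg_right _ (by positivity)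
    have h5 : (((D + 1).choose (m + 1) * (D + 1) : ℕ) : ℝ) ≤ ((D + 1 : ℕ) : ℝ) ^ (m + 2) := by
      have h6 : (D + 1).choose (m + 1) * (D + 1) ≤ (D + 1) ^ (m + 2) := by
        rw [pow_succ (D + 1) (m + 1)]
        exact Nat.mul_le_mul_right _ (Nat.choose_le_pow _ _)
      exact_mod_cast h6
    refine h5.trans ?_
    apply pow_le_pow_left₀ (by positivity)
    push_cast
    linarith
  let t : Fin K → ℕ := fun i => T.orderEmbOfFin hTK i
  have htm : StrictMono t := fun i j hij => (T.orderEmbOfFin hTK).strictMono hij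
  have htT : ∀ i, t i ∈ T := fun i => T.orderEmbOfFin_mem hTK i
  obtain ⟨n, hn1, hn2, hn3, hn4, hn5⟩ := h X hX t htm.injective (fun j => hT _ (htT j)) bad hbad
  obtain ⟨j, hj, n₀, hnth⟩ := C3.consecutive (m := m) t htm n (c * ff X)
    (fun i => (hT _ (htT i)).2.2) hn4 hn5
  have e0 : Nat.nth Nat.Prime n₀ = n + t (j 0) := by
    have := hnth 0
    simpa using this
  have htj : StrictMono (fun i => t (j i)) := htm.comp hj
  have hle : ∀ i, t (j 0) ≤ t (j i) := fun i => htj.monotone (Fin.zero_le i)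
  obtain ⟨U, hU⟩ : ∃ U : Finset ℕ, U = univ.image (fun i => t (j i)) := ⟨_, rfl⟩
  have hUT : U ⊆ T := by
    rw [hU]
    intro u hu
    obtain ⟨i, _, rfl⟩ := mem_image.1 hu
    exact htT _
  have hUc : U.card = m + 1 := by
    rw [hU, card_image_of_injective _ htj.injective, card_univ, Fintype.card_fin]
  have h0U : t (j 0) ∈ U := by
    rw [hU]
    exact mem_image_of_mem _ (mem_univ _)
  have hng := hcon U hUT hUc (t (j 0)) h0U (by
    intro u hu
    rw [hU] at hu
    obtain ⟨i, _, rfl⟩ := mem_image.1 hu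
    exact hle i)
  have hbD : ∀ u ∈ U, u ≤ D := by
    intro u hu
    rw [hD]
    exact Nat.le_floor (hT _ (hUT hu)).2.2
  apply hn3
  show n ∈ bad
  rw [mem_biUnion]
  refine ⟨(U.image (fun u => u - t (j 0)), t (j 0)), ?_, ?_⟩
  · rw [mem_product, mem_range, mem_powersetCard]
    refine ⟨⟨?_, ?_⟩, ?_⟩
    · intro x hx
      obtain ⟨u, hu, rfl⟩ := mem_image.1 hx
      have := hbD u hu
      rw [mem_range]
      omega
    · show (U.image (fun u => u - t (j 0))).card = m + 1
      rw [card_image_of_injOn, hUc]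
      intro u hu v hv huv
      rw [mem_coe, hU] at hu hv
      obtain ⟨i, _, rfl⟩ := mem_image.1 hu
      obtain ⟨i', _, rfl⟩ := mem_image.1 hv
      have h1 := hle i
      have h2 := hle i'
      have h3 : t (j i) - t (j 0) = t (j i') - t (j 0) := huv
      show t (j i) = t (j i')
      omega
    · have := hbD _ h0U
      show t (j 0) < D + 1
      omega
  · rw [if_neg hng, mem_image]
    refine ⟨n₀, ?_, ?_⟩
    · rw [mem_IdxP, e0]
      refine ⟨?_, ?_, ?_⟩
      · push_cast
        have : (0 : ℝ) ≤ (t (j 0) : ℝ) := Nat.cast_nonneg _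
        linarith
      · have h1 := hnth (Fin.last m)
        simp only [Fin.val_last] at h1
        rw [Nat.add_sub_cancel, h1]
        have h2 := (hT _ (htT (j (Fin.last m)))).2.2
        push_cast
        linarith
      · ext x
        rw [mem_image, mem_image]
        constructor
        · rintro ⟨i, hi, rfl⟩
          rw [mem_range] at hi
          have h1 := hnth ⟨i, hi⟩
          simp only at h1
          refine ⟨t (j ⟨i, hi⟩), ?_, ?_⟩
          · rw [hU]
            exact mem_image_of_mem _ (mem_univ _)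
          · rw [h1]
            have := hle ⟨i, hi⟩
            omega
        · rintro ⟨u, hu, rfl⟩
          rw [hU] at hu
          obtain ⟨i, _, rfl⟩ := mem_image.1 hu
          refine ⟨i.1, mem_range.2 i.2, ?_⟩
          rw [hnth i]
          have := hle i
          omega
    · show Nat.nth Nat.Prime n₀ - t (j 0) = n
      omega

end Pool.Agent.H684R3
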