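import Pool.Agent.H684R3.GapsFinal
import Pool.Agent.H684R3.RamseyP
import Pool.Agent.H684R3.CountP

set_option autoImplicit false

/-! A positive proportion of all patterns of `k` consecutive primes, at every scale up to the record
scale. -/

open Finset Filter Topology

namespace Pool.Agent.H684R3

open Pool.Agent.H378R2 (yy)
open Pool.Agent.H256R2.SC (ff t1 t2 t3 t4)
open Pool.Agent.H312R2.RG
open Pool.Agent.H312R2 (base mem_base)

open Classical in
/-- the primes of `(log X, c ff X]` -/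
noncomputable def WW (c X : ℝ) : Finset ℕ :=
  (Finset.Icc 1 ⌊c * ff X⌋₊).filter (fun a : ℕ => a.Prime ∧ Real.log X < a)

open Classical in
theorem density_ofP (hMT : MTRG) (m : ℕ) (hm : 1 ≤ m) : ∃ c₀ c C : ℝ, 0 < c₀ ∧ 0 < c ∧ 0 < C ∧
    ∀ᶠ X : ℝ in atTop, ∀ A : Finset ℕ, A ⊆ WW c₀ X → ∀ δ : ℝ, 0 < δ →
      δ * (WW c₀ X).card ≤ A.card →
      ∀ y : ℝ, C / δ * Real.log (Real.log X) ≤ y → y ≤ c₀ * ff X →
      c * δ ^ (2 * (m + 1)) * y ^ m ≤ (((base (m + 1) ⌊y⌋₊).filter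
        (fun H => (∃ a, ∀ h ∈ H, a + h ∈ A) ∧ GoodPat (m + 1) X H)).card : ℝ) := by
  obtain ⟨K, hK, c₀, hc₀, hR⟩ := ramseyP hMT m hm
  obtain ⟨c', C₁, hc', hC₁, B₀, hmain⟩ := main_countP (m + 1) (by omega) K hK
  refine ⟨c₀, c' / 20 ^ (2 * (m + 1)) / 2 ^ m, 100 * C₁ + 1, hc₀, by positivity, by positivity, ?_⟩
  have hB₀ : ∀ᶠ X : ℝ in atTop, (B₀ : ℝ) ≤ c₀ * ff X :=
    (C3.ff_tendsto.const_mul_atTop hc₀).eventually_ge_atTop _
  filter_upwards [hR, floor_facts c₀ hc₀, hB₀, C3.ff_tendsto.eventually_gt_atTop 0,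
    window_primes c₀ hc₀]
    with X hRX hfl hB₀X hf hwin A hA δ hδ hAδ y hy1 hy2
  obtain ⟨h1, h2, h3, h4, h5, h6⟩ := hfl
  have hcf : 0 ≤ c₀ * ff X := by positivity
  have hB : B₀ ≤ ⌊c₀ * ff X⌋₊ := Nat.le_floor hB₀X
  have hBle : ((⌊c₀ * ff X⌋₊ : ℕ) : ℝ) ≤ c₀ * ff X := Nat.floor_le hcf
  have hA' : ∀ a ∈ A, a.Prime ∧ Real.log X < a ∧ a ≤ ⌊c₀ * ff X⌋₊ := by
    intro a ha
    have h7 := hA ha
    unfold WW at h7
    rw [mem_filter, mem_Icc] at h7
    exact ⟨h7.2.1, h7.2.2, h7.1.2⟩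
  have hW0 : (0 : ℝ) < (WW c₀ X).card := by
    refine lt_of_lt_of_le ?_ hwin
    have : 0 < Real.log (Real.log X) := by linarith
    positivity
  have hδ1 : δ ≤ 1 := by
    have h7 : (A.card : ℝ) ≤ (WW c₀ X).card := by exact_mod_cast card_le_card hA
    have h8 : δ * (WW c₀ X).card ≤ 1 * (WW c₀ X).card := by linarith
    exact le_of_mul_le_mul_right h8 hW0
  have hδi : 1 ≤ 1 / δ := by
    rw [le_div_iff₀ hδ]
    linarith
  have hy3 : 100 * C₁ / δ * Real.log (Real.log X) + Real.log (Real.log X) ≤ y := by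
    have e1 : (100 * C₁ + 1) / δ * Real.log (Real.log X) =
        100 * C₁ / δ * Real.log (Real.log X) + 1 / δ * Real.log (Real.log X) := by ring
    have e2 : 1 * Real.log (Real.log X) ≤ 1 / δ * Real.log (Real.log X) :=
      mul_le_mul_of_nonneg_right hδi (by linarith)
    linarith
  have hy2' : (2 : ℝ) ≤ y := by
    have : 0 ≤ 100 * C₁ / δ * Real.log (Real.log X) := by
      apply mul_nonneg (by positivity)
      linarith
    linarith
  have hYy : y - 1 ≤ ((⌊y⌋₊ : ℕ) : ℝ) := by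
    have := Nat.lt_floor_add_one y
    linarith
  have key := hmain (δ / 20) (by positivity) ⌊c₀ * ff X⌋₊ hB A (fun a ha => ⟨(hA' a ha).1, (hA' a ha).2.2⟩)
    (by
      refine le_trans ?_ hAδ
      have e1 : δ / 20 * ((⌊c₀ * ff X⌋₊ : ℕ) : ℝ) / Real.log ((⌊c₀ * ff X⌋₊ : ℕ) : ℝ) ≤
          δ / 20 * (c₀ * ff X) / Real.log (Real.log X) :=
        div_le_div₀ (by positivity) (mul_le_mul_of_nonneg_left hBle (by positivity))
          (by linarith) h4
      refine e1.trans ?_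
      have e2 : δ / 20 * (c₀ * ff X) / Real.log (Real.log X) =
          δ * (c₀ / 20 * ff X / Real.log (Real.log X)) := by ring
      rw [e2]
      exact mul_le_mul_of_nonneg_left hwin hδ.le)
    (GoodPat (m + 1) X)
    (fun T hT hTK => hRX T (fun t ht => ⟨(hA' t (hT ht)).1, by
      have e1 := (hA' t (hT ht)).2.1
      have e2 : (yy X : ℝ) ≤ Real.log X / 1000 := Nat.floor_le (by linarith)
      have e3 : (yy X : ℝ) < t := by linarith
      exact_mod_cast e3, (Nat.le_floor_iff hcf).1 (hA' t (hT ht)).2.2⟩) hTK)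
    ⌊y⌋₊
    (by
      have e1 : C₁ / (δ / 20) * Real.log ((⌊c₀ * ff X⌋₊ : ℕ) : ℝ) ≤
          C₁ / (δ / 20) * (5 * Real.log (Real.log X)) :=
        mul_le_mul_of_nonneg_left h6 (by positivity)
      have e2 : C₁ / (δ / 20) * (5 * Real.log (Real.log X)) =
          100 * C₁ / δ * Real.log (Real.log X) := by
        field_simp
        ring
      linarith)
    (Nat.floor_le_floor hy2)
  refine le_trans ?_ key
  have e1 : y / 2 ≤ ((⌊y⌋₊ : ℕ) : ℝ) := by linarith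
  rw [Nat.add_sub_cancel]
  calc c' / 20 ^ (2 * (m + 1)) / 2 ^ m * δ ^ (2 * (m + 1)) * y ^ m =
        c' * (δ / 20) ^ (2 * (m + 1)) * (y / 2) ^ m := by
        rw [div_pow, div_pow]
        ring
    _ ≤ c' * (δ / 20) ^ (2 * (m + 1)) * ((⌊y⌋₊ : ℕ) : ℝ) ^ m :=
        mul_le_mul_of_nonneg_left (pow_le_pow_left₀ (by positivity) e1 m) (by positivity)

end Pool.Agent.H684R3
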