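import Pool.Agent.H684R3.Ramsey
import Pool.Agent.H684R3.Count

set_option autoImplicit false

/-! A positive proportion of all sizes occur as prime gaps, at every scale up to the record scale. -/

open Finset Filter Topology

namespace Pool.Agent.H684R3

open Pool.Agent.H378R2 (yy)
open Pool.Agent.H256R2.SC (ff t1 t2 t3 t4)
open Pool.Agent.H312R2.RG

theorem ff_lower' (C : ℝ) (hC : 0 < C) : ∀ᶠ X : ℝ in atTop,
    C * (Real.log X * Real.log (Real.log X)) ≤ ff X := by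
  have h := (Real.isLittleO_pow_log_id_atTop (n := 2)).def (show (0 : ℝ) < 1 / C by positivity)
  filter_upwards [t1.eventually_gt_atTop 0, t2.eventually_gt_atTop 0, t3.eventually_gt_atTop 0,
    t4.eventually_ge_atTop 1, t2.eventually h] with X h1 h2 h3 h4 h5
  unfold ff
  rw [le_div_iff₀ (by positivity)]
  simp only [id, Real.norm_eq_abs] at h5
  rw [abs_of_nonneg (sq_nonneg _), abs_of_pos h2] at h5
  have h6 : C * Real.log (Real.log (Real.log X)) ^ 2 ≤ Real.log (Real.log X) := by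
    have := mul_le_mul_of_nonneg_left h5 hC.le
    rwa [← mul_assoc, mul_one_div_cancel hC.ne', one_mul] at this
  calc C * (Real.log X * Real.log (Real.log X)) * Real.log (Real.log (Real.log X)) ^ 2
      = Real.log X * Real.log (Real.log X) * (C * Real.log (Real.log (Real.log X)) ^ 2) := by ring
    _ ≤ Real.log X * Real.log (Real.log X) * Real.log (Real.log X) :=
        mul_le_mul_of_nonneg_left h6 (by positivity)
    _ = Real.log X * Real.log (Real.log X) ^ 2 * 1 := by ring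
    _ ≤ Real.log X * Real.log (Real.log X) ^ 2 * Real.log (Real.log (Real.log (Real.log X))) :=
        mul_le_mul_of_nonneg_left h4 (by positivity)

/-- the size of `⌊c f(X)⌋` -/
theorem floor_facts (c : ℝ) (hc : 0 < c) : ∀ᶠ X : ℝ in atTop, 2 ≤ Real.log (Real.log X) ∧
    1 ≤ Real.log X ∧
    Real.log X ≤ ((⌊c * ff X⌋₊ : ℕ) : ℝ) ∧ Real.log (Real.log X) ≤ Real.log ((⌊c * ff X⌋₊ : ℕ) : ℝ) ∧
    Real.log (c * ff X) ≤ 5 * Real.log (Real.log X) ∧
    Real.log ((⌊c * ff X⌋₊ : ℕ) : ℝ) ≤ 5 * Real.log (Real.log X) := by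
  filter_upwards [t2.eventually_ge_atTop 2, t2.eventually_ge_atTop (2 / c), t1.eventually_ge_atTop 1,
    t1.eventually_ge_atTop c, C3.ff_lower, C3.ff_upper, C3.ff_tendsto.eventually_gt_atTop 0]
    with X h1 h2 h3 h4 h5 h6 h7
  have hl0 : 0 < Real.log X := by linarith
  have e1 : 2 * Real.log X ≤ c * ff X := by
    have h8 : 2 ≤ c * Real.log (Real.log X) := by
      have := (div_le_iff₀ hc).1 h2
      linarith
    calc 2 * Real.log X ≤ (c * Real.log (Real.log X)) * Real.log X :=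
          mul_le_mul_of_nonneg_right h8 hl0.le
      _ = c * (Real.log X * Real.log (Real.log X)) := by ring
      _ ≤ c * ff X := mul_le_mul_of_nonneg_left h5 hc.le
  have e2 : Real.log X ≤ ((⌊c * ff X⌋₊ : ℕ) : ℝ) := by
    have := Nat.lt_floor_add_one (c * ff X)
    linarith
  have e3 : Real.log (c * ff X) ≤ 5 * Real.log (Real.log X) := by
    have h8 : c * ff X ≤ Real.log X ^ 5 := by
      calc c * ff X ≤ Real.log X * Real.log X ^ 4 :=
            mul_le_mul h4 h6 h7.le hl0.le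
        _ = Real.log X ^ 5 := by ring
    calc Real.log (c * ff X) ≤ Real.log (Real.log X ^ 5) :=
          Real.log_le_log (by positivity) h8
      _ = 5 * Real.log (Real.log X) := by
          rw [Real.log_pow]
          norm_num
  refine ⟨h1, h3, e2, Real.log_le_log hl0 e2, e3, ?_⟩
  refine le_trans (Real.log_le_log (lt_of_lt_of_le hl0 e2) (Nat.floor_le (by positivity))) e3

open Classical in
theorem density_of (hMT : MTRG) : ∃ c₀ : ℝ, 0 < c₀ ∧ ∀ δ : ℝ, 0 < δ → ∃ c C : ℝ, 0 < c ∧ 0 < C ∧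
    ∀ᶠ X : ℝ in atTop, ∀ A : Finset ℕ,
      (∀ a ∈ A, a.Prime ∧ Real.log X < a ∧ (a : ℝ) ≤ c₀ * ff X) →
      δ * ff X / Real.log (Real.log X) ≤ A.card → ∀ y : ℝ, C * Real.log (Real.log X) ≤ y →
      y ≤ c₀ * ff X → c * y ≤ (((Finset.Icc 1 ⌊y⌋₊).filter
        (fun h => (∃ a ∈ A, ∃ b ∈ A, b = a + h) ∧ GoodGap X h)).card : ℝ) := by
  obtain ⟨K, hK, c₀, hc₀, hR⟩ := ramsey hMT
  refine ⟨c₀, hc₀, fun δ hδ => ?_⟩
  obtain ⟨c', C₁, hc', hC₁, B₀, hmain⟩ := main_count K hK (δ / c₀) (by positivity)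
  refine ⟨c' / 2, 5 * C₁ + 1, by positivity, by positivity, ?_⟩
  have hB₀ : ∀ᶠ X : ℝ in atTop, (B₀ : ℝ) ≤ c₀ * ff X :=
    (C3.ff_tendsto.const_mul_atTop hc₀).eventually_ge_atTop _
  filter_upwards [hR, floor_facts c₀ hc₀, hB₀, C3.ff_tendsto.eventually_gt_atTop 0]
    with X hRX hfl hB₀X hf A hA hAδ y hy1 hy2
  obtain ⟨h1, h2, h3, h4, h5, h6⟩ := hfl
  have hcf : 0 ≤ c₀ * ff X := by positivity
  have hB : B₀ ≤ ⌊c₀ * ff X⌋₊ := Nat.le_floor hB₀X
  have hBle : ((⌊c₀ * ff X⌋₊ : ℕ) : ℝ) ≤ c₀ * ff X := Nat.floor_le hcf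
  have hy2' : (2 : ℝ) ≤ y := by
    have : Real.log (Real.log X) ≤ (5 * C₁ + 1) * Real.log (Real.log X) := by
      have : 0 ≤ C₁ * Real.log (Real.log X) := by positivity
      linarith
    linarith
  have hYy : y - 1 ≤ ((⌊y⌋₊ : ℕ) : ℝ) := by
    have := Nat.lt_floor_add_one y
    linarith
  have key := hmain ⌊c₀ * ff X⌋₊ hB A (fun a ha => ⟨(hA a ha).1, Nat.le_floor (hA a ha).2.2⟩)
    (by
      refine le_trans ?_ hAδ
      have e1 : δ / c₀ * ((⌊c₀ * ff X⌋₊ : ℕ) : ℝ) ≤ δ * ff X := by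
        calc δ / c₀ * ((⌊c₀ * ff X⌋₊ : ℕ) : ℝ) ≤ δ / c₀ * (c₀ * ff X) :=
              mul_le_mul_of_nonneg_left hBle (by positivity)
          _ = δ * ff X := by field_simp
      exact div_le_div₀ (by positivity) e1 (by linarith) h4)
    (GoodGap X)
    (fun T hT hTK => hRX T (fun t ht => ⟨(hA t (hT ht)).1, by
      have e1 := (hA t (hT ht)).2.1
      have e2 : (yy X : ℝ) ≤ Real.log X / 1000 := Nat.floor_le (by linarith)
      have e3 : (yy X : ℝ) < t := by linarith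
      exact_mod_cast e3, (hA t (hT ht)).2.2⟩) hTK)
    ⌊y⌋₊
    (by
      have e1 : C₁ * Real.log ((⌊c₀ * ff X⌋₊ : ℕ) : ℝ) ≤ C₁ * (5 * Real.log (Real.log X)) :=
        mul_le_mul_of_nonneg_left h6 hC₁.le
      linarith)
    (Nat.floor_le_floor hy2)
  refine le_trans ?_ key
  have e1 : y / 2 ≤ ((⌊y⌋₊ : ℕ) : ℝ) := by linarith
  calc c' / 2 * y = c' * (y / 2) := by ring
    _ ≤ c' * ((⌊y⌋₊ : ℕ) : ℝ) := mul_le_mul_of_nonneg_left e1 hc'.le

/-- there are enough primes in the window -/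
theorem window_primes (c : ℝ) (hc : 0 < c) : ∀ᶠ X : ℝ in atTop, c / 20 * ff X /
    Real.log (Real.log X) ≤ (((Finset.Icc 1 ⌊c * ff X⌋₊).filter
      (fun a : ℕ => a.Prime ∧ Real.log X < a)).card : ℝ) := by
  classical
  have hpi := Pool.Agent.Helper923.PNT.pi_tendsto
  have h2 : Tendsto (fun X : ℝ => c * ff X) atTop atTop := C3.ff_tendsto.const_mul_atTop hc
  have h3 := h2.eventually (hpi.eventually (lt_mem_nhds (show (1 / 2 : ℝ) < 1 by norm_num)))
  filter_upwards [h3, floor_facts c hc, C3.ff_tendsto.eventually_gt_atTop 0,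
    ff_lower' (40 / c) (by positivity), h2.eventually_gt_atTop 1] with X h3 hfl hf hl h21
  obtain ⟨h4, h5, h6, h7, h8, h9⟩ := hfl
  have hcf : 0 < c * ff X := by positivity
  have hL : 0 < Real.log (c * ff X) := Real.log_pos h21
  have e1 : (1 / 2) * (c * ff X) / Real.log (c * ff X) ≤ (Nat.primeCounting ⌊c * ff X⌋₊ : ℝ) := by
    rw [div_le_iff₀ hL]
    have := (lt_div_iff₀ hcf).1 h3
    linarith
  have e2 : c / 10 * ff X / Real.log (Real.log X) ≤ (1 / 2) * (c * ff X) / Real.log (c * ff X) := by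
    rw [div_le_div_iff₀ (by linarith) hL]
    have : c / 10 * ff X * Real.log (c * ff X) ≤ c / 10 * ff X * (5 * Real.log (Real.log X)) :=
      mul_le_mul_of_nonneg_left h8 (by positivity)
    linarith
  have e3 : (Nat.primeCounting ⌊c * ff X⌋₊ : ℝ) ≤ (((Finset.Icc 1 ⌊c * ff X⌋₊).filter
      (fun a : ℕ => a.Prime ∧ Real.log X < a)).card : ℝ) + Real.log X := by
    have e4 : Nat.primeCounting ⌊c * ff X⌋₊ ≤ ((Finset.Icc 1 ⌊c * ff X⌋₊).filter
      (fun a : ℕ => a.Prime ∧ Real.log X < a)).card + ⌊Real.log X⌋₊ := by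
      have e5 : Nat.primeCounting ⌊c * ff X⌋₊ =
          ((Finset.range (⌊c * ff X⌋₊ + 1)).filter Nat.Prime).card := by
        rw [Nat.primeCounting, Nat.primeCounting', Nat.count_eq_card_filter_range]
      rw [e5]
      have e6 : (Finset.range (⌊c * ff X⌋₊ + 1)).filter Nat.Prime ⊆
          ((Finset.Icc 1 ⌊c * ff X⌋₊).filter (fun a : ℕ => a.Prime ∧ Real.log X < a)) ∪
            Finset.Icc 1 ⌊Real.log X⌋₊ := by
        intro a ha
        rw [mem_filter, mem_range] at ha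
        rw [mem_union, mem_filter, mem_Icc, mem_Icc]
        by_cases hal : Real.log X < a
        · exact Or.inl ⟨⟨ha.2.one_lt.le, by omega⟩, ha.2, hal⟩
        · exact Or.inr ⟨ha.2.one_lt.le, Nat.le_floor (not_lt.1 hal)⟩
      refine (card_le_card e6).trans ((card_union_le _ _).trans ?_)
      rw [Nat.card_Icc]
      omega
    have e7 : ((⌊Real.log X⌋₊ : ℕ) : ℝ) ≤ Real.log X := Nat.floor_le (by linarith)
    have e8 : (Nat.primeCounting ⌊c * ff X⌋₊ : ℝ) ≤ (((Finset.Icc 1 ⌊c * ff X⌋₊).filter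
      (fun a : ℕ => a.Prime ∧ Real.log X < a)).card : ℝ) + ((⌊Real.log X⌋₊ : ℕ) : ℝ) := by
      exact_mod_cast e4
    linarith
  have e4 : Real.log X ≤ c / 20 * ff X / Real.log (Real.log X) := by
    rw [le_div_iff₀ (by linarith)]
    have h10 : 40 / c * (Real.log X * Real.log (Real.log X)) ≤ ff X := hl
    have h11 : c / 20 * (40 / c * (Real.log X * Real.log (Real.log X))) ≤ c / 20 * ff X :=
      mul_le_mul_of_nonneg_left h10 (by positivity)
    have h12 : c / 20 * (40 / c * (Real.log X * Real.log (Real.log X))) =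
        2 * (Real.log X * Real.log (Real.log X)) := by
      field_simp
      norm_num
    rw [h12] at h11
    have h13 : 0 ≤ Real.log X * Real.log (Real.log X) := by
      apply mul_nonneg <;> linarith
    linarith
  have e5 : c / 10 * ff X / Real.log (Real.log X) = c / 20 * ff X / Real.log (Real.log X) +
      c / 20 * ff X / Real.log (Real.log X) := by ring
  linarith

open Classical in
theorem all_of (hMT : MTRG) : ∃ c₀ : ℝ, 0 < c₀ ∧
    (∀ δ : ℝ, 0 < δ → ∃ c C : ℝ, 0 < c ∧ 0 < C ∧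
    ∀ᶠ X : ℝ in atTop, ∀ A : Finset ℕ,
      (∀ a ∈ A, a.Prime ∧ Real.log X < a ∧ (a : ℝ) ≤ c₀ * ff X) →
      δ * ff X / Real.log (Real.log X) ≤ A.card → ∀ y : ℝ, C * Real.log (Real.log X) ≤ y →
      y ≤ c₀ * ff X → c * y ≤ (((Finset.Icc 1 ⌊y⌋₊).filter
        (fun h => (∃ a ∈ A, ∃ b ∈ A, b = a + h) ∧ GoodGap X h)).card : ℝ)) ∧
    (∃ c C : ℝ, 0 < c ∧ 0 < C ∧ ∀ᶠ X : ℝ in atTop, ∀ y : ℝ, C * Real.log (Real.log X) ≤ y →
      y ≤ c₀ * ff X → c * y ≤ (((Finset.Icc 1 ⌊y⌋₊).filter (GoodGap X)).card : ℝ)) := by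
  obtain ⟨c₀, hc₀, h⟩ := density_of hMT
  refine ⟨c₀, hc₀, h, ?_⟩
  obtain ⟨c, C, hc, hC, h1⟩ := h (c₀ / 20) (by positivity)
  refine ⟨c, C, hc, hC, ?_⟩
  filter_upwards [h1, window_primes c₀ hc₀, C3.ff_tendsto.eventually_gt_atTop 0]
    with X h1 h2 hf y hy1 hy2
  have h3 := h1 ((Finset.Icc 1 ⌊c₀ * ff X⌋₊).filter (fun a : ℕ => a.Prime ∧ Real.log X < a))
    (fun a ha => by
      rw [mem_filter, mem_Icc] at ha
      exact ⟨ha.2.1, ha.2.2, (Nat.le_floor_iff (by positivity)).1 ha.1.2⟩) h2 y hy1 hy2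
  refine h3.trans ?_
  exact_mod_cast card_le_card (fun x hx => by
    rw [mem_filter] at hx ⊢
    exact ⟨hx.1, hx.2.2⟩)

end Pool.Agent.H684R3
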