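import Mathlib

set_option autoImplicit false

/-! A hypergraph on a finite set with small independence number has many edges. -/

open Finset

namespace Pool.Agent.H684R3

open Classical in
/-- double counting -/
theorem hyper (k K : ℕ) (hk : 1 ≤ k) (hkK : k ≤ K) (Gd : Finset ℕ → Prop) (S : Finset ℕ)
    (hR : ∀ T ⊆ S, T.card = K → ∃ U ⊆ T, U.card = k ∧ Gd U) :
    (S.card - K) ^ k ≤ K ^ k * ((powersetCard k S).filter Gd).card := by
  by_cases hSK : S.card < K
  · rw [Nat.sub_eq_zero_of_le hSK.le, zero_pow (by omega)]
    exact Nat.zero_le _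
  push Not at hSK
  obtain ⟨G, hG⟩ : ∃ G, G = (powersetCard k S).filter Gd := ⟨_, rfl⟩
  rw [← hG]
  have h1 : S.card.choose K ≤ G.card * (S.card - k).choose (K - k) := by
    rw [← card_powersetCard K S]
    have h2 : powersetCard K S ⊆ G.biUnion (fun U => (powersetCard K S).filter (fun T => U ⊆ T)) := by
      intro T hT
      obtain ⟨hT1, hT2⟩ := mem_powersetCard.1 hT
      obtain ⟨U, hU, hUk, hUG⟩ := hR T hT1 hT2
      rw [mem_biUnion]
      refine ⟨U, ?_, ?_⟩
      · rw [hG, mem_filter, mem_powersetCard]
        exact ⟨⟨hU.trans hT1, hUk⟩, hUG⟩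
      · rw [mem_filter]
        exact ⟨hT, hU⟩
    refine (card_le_card h2).trans (card_biUnion_le_card_mul _ _ _ ?_)
    intro U hU
    rw [hG, mem_filter, mem_powersetCard] at hU
    obtain ⟨⟨hU1, hU2⟩, _⟩ := hU
    have h3 : (S.card - k).choose (K - k) = (powersetCard (K - k) (S \ U)).card := by
      rw [card_powersetCard, card_sdiff_of_subset hU1, hU2]
    rw [h3]
    apply card_le_card_of_injOn (fun T => T \ U)
    · intro T hT
      rw [mem_coe, mem_filter, mem_powersetCard] at hT
      rw [mem_coe, mem_powersetCard]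
      refine ⟨sdiff_subset_sdiff hT.1.1 (Subset.refl _), ?_⟩
      show (T \ U).card = K - k
      rw [card_sdiff_of_subset hT.2, hT.1.2, hU2]
    · intro T hT T' hT' h
      rw [mem_coe, mem_filter] at hT hT'
      have h4 : T \ U = T' \ U := h
      rw [← sdiff_union_of_subset hT.2, h4, sdiff_union_of_subset hT'.2]
  have h2 : S.card.choose k ≤ G.card * K.choose k := by
    have h3 := Nat.choose_mul (n := S.card) hkK
    have h4 : 0 < (S.card - k).choose (K - k) := Nat.choose_pos (by omega)
    have h5 : S.card.choose k * (S.card - k).choose (K - k) ≤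
        (G.card * K.choose k) * (S.card - k).choose (K - k) := by
      rw [← h3]
      calc S.card.choose K * K.choose k ≤ (G.card * (S.card - k).choose (K - k)) * K.choose k :=
            Nat.mul_le_mul_right _ h1
        _ = _ := by ring
    exact Nat.le_of_mul_le_mul_right h5 h4
  calc (S.card - K) ^ k ≤ (S.card + 1 - k) ^ k := Nat.pow_le_pow_left (by omega) _
    _ ≤ S.card.descFactorial k := Nat.pow_sub_le_descFactorial _ _
    _ = Nat.factorial k * S.card.choose k := Nat.descFactorial_eq_factorial_mul_choose _ _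
    _ ≤ Nat.factorial k * (G.card * K.choose k) := Nat.mul_le_mul_left _ h2
    _ = (Nat.factorial k * K.choose k) * G.card := by ring
    _ = K.descFactorial k * G.card := by rw [Nat.descFactorial_eq_factorial_mul_choose]
    _ ≤ K ^ k * G.card := Nat.mul_le_mul_right _ (Nat.descFactorial_le_pow _ _)

end Pool.Agent.H684R3
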