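import Pool.Agent.H357R2.SI.PairFinal

set_option autoImplicit false

/-! Fourth moment of `σ_{-1}`. -/

open Finset

namespace Pool.Agent.H684R3

open Pool.Agent.H357R2.SI

private theorem cs (a b c : ℝ) (hab : a + b = 2 * c) (h : ℕ) :
    (∑ d ∈ h.divisors, (d : ℝ) ^ c) ^ 2 ≤ (∑ d ∈ h.divisors, (d : ℝ) ^ a) *
      ∑ d ∈ h.divisors, (d : ℝ) ^ b := by
  have h2 : ∑ d ∈ h.divisors, (d : ℝ) ^ c =
      ∑ d ∈ h.divisors, (d : ℝ) ^ (a / 2) * (d : ℝ) ^ (b / 2) := by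
    apply Finset.sum_congr rfl
    intro d hd
    have hd0 : (0 : ℝ) < d := by exact_mod_cast Nat.pos_of_mem_divisors hd
    rw [← Real.rpow_add hd0]
    congr 1
    linarith
  rw [h2]
  refine (Finset.sum_mul_sq_le_sq_mul_sq _ _ _).trans (le_of_eq ?_)
  congr 1
  · apply Finset.sum_congr rfl
    intro d _
    rw [← Real.rpow_natCast, ← Real.rpow_mul (Nat.cast_nonneg d)]
    congr 1
    push_cast
    ring
  · apply Finset.sum_congr rfl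
    intro d _
    rw [← Real.rpow_natCast, ← Real.rpow_mul (Nat.cast_nonneg d)]
    congr 1
    push_cast
    ring

/-- average of `σ_{-1}(h)^4` -/
theorem sum_sg_four : ∃ C : ℝ, 1 ≤ C ∧ ∀ T : ℕ, ∑ h ∈ Finset.Icc 1 T, sg h ^ 4 ≤ C * T := by
  have hsum : Summable (fun n : ℕ => (n : ℝ) ^ (-(3 / 2) : ℝ)) :=
    Real.summable_nat_rpow.mpr (by norm_num)
  have hsum1 : Summable (fun n : ℕ => (n : ℝ) ^ (-(7 / 6) : ℝ)) :=
    Real.summable_nat_rpow.mpr (by norm_num)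
  set C₀ : ℝ := ∑' n : ℕ, (n : ℝ) ^ (-(3 / 2) : ℝ) with hC₀
  set C₁ : ℝ := ∑' n : ℕ, (n : ℝ) ^ (-(7 / 6) : ℝ) with hC₁
  have hC₀0 : 0 ≤ C₀ := tsum_nonneg (fun n => by positivity)
  have hC₁0 : 0 ≤ C₁ := tsum_nonneg (fun n => by positivity)
  have hpart : ∀ s : Finset ℕ, ∑ d ∈ s, (d : ℝ) ^ (-(3 / 2) : ℝ) ≤ C₀ :=
    fun s => hsum.sum_le_tsum s (fun n _ => by positivity)
  have hpart1 : ∀ s : Finset ℕ, ∑ d ∈ s, (d : ℝ) ^ (-(7 / 6) : ℝ) ≤ C₁ :=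
    fun s => hsum1.sum_le_tsum s (fun n _ => by positivity)
  refine ⟨C₁ ^ 3 * C₀ + 1, by nlinarith [pow_nonneg hC₁0 3, mul_nonneg (pow_nonneg hC₁0 3) hC₀0],
    fun T => ?_⟩
  have h1 : ∀ h ∈ Finset.Icc 1 T, sg h ^ 4 ≤ C₁ ^ 3 * ∑ d ∈ h.divisors, (d : ℝ) ^ (-(1 / 2) : ℝ) := by
    intro h _
    have e1 : sg h = ∑ d ∈ h.divisors, (d : ℝ) ^ (-1 : ℝ) := by
      unfold sg
      apply Finset.sum_congr rfl
      intro d _
      rw [Real.rpow_neg_one, one_div]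
    have e2 := cs (-(7 / 6)) (-(5 / 6)) (-1) (by norm_num) h
    have e3 := cs (-(7 / 6)) (-(1 / 2)) (-(5 / 6)) (by norm_num) h
    rw [← e1] at e2
    have n1 : 0 ≤ ∑ d ∈ h.divisors, (d : ℝ) ^ (-(7 / 6) : ℝ) :=
      Finset.sum_nonneg (fun _ _ => by positivity)
    have n2 : 0 ≤ ∑ d ∈ h.divisors, (d : ℝ) ^ (-(5 / 6) : ℝ) :=
      Finset.sum_nonneg (fun _ _ => by positivity)
    have n3 : 0 ≤ ∑ d ∈ h.divisors, (d : ℝ) ^ (-(1 / 2) : ℝ) :=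
      Finset.sum_nonneg (fun _ _ => by positivity)
    set a := ∑ d ∈ h.divisors, (d : ℝ) ^ (-(7 / 6) : ℝ)
    set b := ∑ d ∈ h.divisors, (d : ℝ) ^ (-(5 / 6) : ℝ)
    set e := ∑ d ∈ h.divisors, (d : ℝ) ^ (-(1 / 2) : ℝ)
    have ha : a ≤ C₁ := hpart1 _
    calc sg h ^ 4 = (sg h ^ 2) ^ 2 := by ring
      _ ≤ (a * b) ^ 2 := by
          apply pow_le_pow_left₀ (sq_nonneg _) e2
      _ = a ^ 2 * b ^ 2 := by ring
      _ ≤ a ^ 2 * (a * e) := by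
          apply mul_le_mul_of_nonneg_left e3 (sq_nonneg _)
      _ = a ^ 3 * e := by ring
      _ ≤ C₁ ^ 3 * e := by
          apply mul_le_mul_of_nonneg_right _ n3
          exact pow_le_pow_left₀ n1 ha 3
  have h5 : ∑ h ∈ Finset.Icc 1 T, ∑ d ∈ h.divisors, (d : ℝ) ^ (-(1 / 2) : ℝ) ≤ C₀ * T := by
    have h6 : ∀ h ∈ Finset.Icc 1 T, ∑ d ∈ h.divisors, (d : ℝ) ^ (-(1 / 2) : ℝ) =
        ∑ d ∈ Finset.Icc 1 T, if d ∣ h then (d : ℝ) ^ (-(1 / 2) : ℝ) else 0 := by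
      intro h hh
      rw [Finset.mem_Icc] at hh
      rw [← Finset.sum_filter]
      apply Finset.sum_congr _ (fun _ _ => rfl)
      ext d
      rw [Nat.mem_divisors, Finset.mem_filter, Finset.mem_Icc]
      constructor
      · rintro ⟨h7, h8⟩
        exact ⟨⟨Nat.pos_of_dvd_of_pos h7 (by omega), (Nat.le_of_dvd (by omega) h7).trans hh.2⟩, h7⟩
      · rintro ⟨_, h7⟩
        exact ⟨h7, by omega⟩
    rw [Finset.sum_congr rfl h6, Finset.sum_comm]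
    have h7 : ∀ d ∈ Finset.Icc 1 T, (∑ h ∈ Finset.Icc 1 T,
        if d ∣ h then (d : ℝ) ^ (-(1 / 2) : ℝ) else 0) ≤ (d : ℝ) ^ (-(3 / 2) : ℝ) * T := by
      intro d hd
      rw [Finset.mem_Icc] at hd
      have hd0 : (0 : ℝ) < d := by exact_mod_cast hd.1
      rw [← Finset.sum_filter, Finset.sum_const, nsmul_eq_mul]
      have h8 : ((Finset.Icc 1 T).filter (fun h => d ∣ h)).card = T / d := by
        have := Nat.Ioc_filter_dvd_card_eq_div T d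
        rw [← this]
        congr 1
      rw [h8]
      have h9 : ((T / d : ℕ) : ℝ) ≤ (T : ℝ) / d := Nat.cast_div_le
      calc ((T / d : ℕ) : ℝ) * (d : ℝ) ^ (-(1 / 2) : ℝ) ≤ (T : ℝ) / d * (d : ℝ) ^ (-(1 / 2) : ℝ) := by
            gcongr
        _ = (d : ℝ) ^ (-(3 / 2) : ℝ) * T := by
            rw [show (-(3 / 2) : ℝ) = -1 + -(1 / 2) by norm_num, Real.rpow_add hd0,
              Real.rpow_neg_one]
            field_simp
    refine (Finset.sum_le_sum h7).trans ?_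
    rw [← Finset.sum_mul]
    exact mul_le_mul_of_nonneg_right (hpart _) (Nat.cast_nonneg T)
  calc ∑ h ∈ Finset.Icc 1 T, sg h ^ 4
      ≤ ∑ h ∈ Finset.Icc 1 T, C₁ ^ 3 * ∑ d ∈ h.divisors, (d : ℝ) ^ (-(1 / 2) : ℝ) :=
        Finset.sum_le_sum h1
    _ = C₁ ^ 3 * ∑ h ∈ Finset.Icc 1 T, ∑ d ∈ h.divisors, (d : ℝ) ^ (-(1 / 2) : ℝ) := by
        rw [Finset.mul_sum]
    _ ≤ C₁ ^ 3 * (C₀ * T) := mul_le_mul_of_nonneg_left h5 (pow_nonneg hC₁0 3)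
    _ ≤ (C₁ ^ 3 * C₀ + 1) * T := by
        have : (0 : ℝ) ≤ T := Nat.cast_nonneg T
        nlinarith

end Pool.Agent.H684R3
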