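import Pool.Agent.H312R2.RG.C3
import Pool.Agent.H684R3.Turan

set_option autoImplicit false

/-! The Maynard-Tao theorem inside the record windows (TEAM RG) as a Ramsey property of the gaps. -/

open Finset Filter Topology

namespace Pool.Agent.H684R3

open Pool.Agent.H378R2 (yy)
open Pool.Agent.H256R2.SC (ff)
open Pool.Agent.H312R2.RG

/-- the indices `n` with `X < p_n`, `p_(n+1) ≤ 4 X` and `p_(n+1) - p_n = h` -/
noncomputable def Idx (X : ℝ) (h : ℕ) : Finset ℕ := by
  classical exact (Finset.range ⌊4 * X⌋₊).filter (fun n => X < Nat.nth Nat.Prime n ∧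
    (Nat.nth Nat.Prime (n + 1) : ℝ) ≤ 4 * X ∧ Nat.nth Nat.Prime (n + 1) = Nat.nth Nat.Prime n + h)

theorem mem_Idx {X : ℝ} {h n : ℕ} : n ∈ Idx X h ↔ X < Nat.nth Nat.Prime n ∧
    (Nat.nth Nat.Prime (n + 1) : ℝ) ≤ 4 * X ∧
    Nat.nth Nat.Prime (n + 1) = Nat.nth Nat.Prime n + h := by
  classical
  unfold Idx
  rw [mem_filter, mem_range]
  constructor
  · exact fun h => h.2
  · intro h
    refine ⟨?_, h⟩
    have h1 := Nat.add_two_le_nth_prime (n + 1)
    have h2 : n + 1 + 2 ≤ ⌊4 * X⌋₊ := h1.trans (Nat.le_floor h.2.1)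
    omega

/-- `h` is the size of at least `X^(7/8)` gaps -/
def GoodGap (X : ℝ) (h : ℕ) : Prop := X ^ (7 / 8 : ℝ) ≤ ((Idx X h).card : ℝ)

theorem poly_bound (c : ℝ) (hc : 0 < c) : ∀ᶠ X : ℝ in atTop,
    (c * ff X + 1) ^ 2 * X ^ (7 / 8 : ℝ) ≤ X ^ (9 / 10 : ℝ) := by
  have h1 := (isLittleO_log_rpow_atTop (show (0 : ℝ) < 1 / 1000 by norm_num)).def
    (show (0 : ℝ) < 1 by norm_num)
  have h2 : Tendsto (fun X : ℝ => X ^ (17 / 1000 : ℝ)) atTop atTop :=
    tendsto_rpow_atTop (by norm_num)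
  filter_upwards [h1, h2.eventually_ge_atTop ((c + 1) ^ 2), C3.ff_upper,
    eventually_gt_atTop (1 : ℝ), C3.ff_tendsto.eventually_gt_atTop 0] with X h1 h2 h3 h4 h5
  have hX0 : (0 : ℝ) < X := by linarith
  have hl : 0 < Real.log X := Real.log_pos h4
  rw [Real.norm_of_nonneg hl.le, Real.norm_of_nonneg (by positivity), one_mul] at h1
  have h6 : ff X ≤ X ^ (4 / 1000 : ℝ) := by
    calc ff X ≤ Real.log X ^ 4 := h3
      _ ≤ (X ^ (1 / 1000 : ℝ)) ^ 4 := pow_le_pow_left₀ hl.le h1 4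
      _ = X ^ (4 / 1000 : ℝ) := by
        rw [← Real.rpow_natCast, ← Real.rpow_mul hX0.le]
        norm_num
  have h7 : (1 : ℝ) ≤ X ^ (4 / 1000 : ℝ) := Real.one_le_rpow h4.le (by norm_num)
  have h8 : c * ff X + 1 ≤ (c + 1) * X ^ (4 / 1000 : ℝ) := by nlinarith
  have h9 : 0 ≤ c * ff X + 1 := by positivity
  calc (c * ff X + 1) ^ 2 * X ^ (7 / 8 : ℝ) ≤ ((c + 1) * X ^ (4 / 1000 : ℝ)) ^ 2 *
        X ^ (7 / 8 : ℝ) := by
        apply mul_le_mul_of_nonneg_right (pow_le_pow_left₀ h9 h8 2) (by positivity)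
    _ = (c + 1) ^ 2 * (X ^ (8 / 1000 : ℝ) * X ^ (7 / 8 : ℝ)) := by
        rw [mul_pow, ← Real.rpow_natCast (X ^ (4 / 1000 : ℝ)), ← Real.rpow_mul hX0.le]
        norm_num
        ring
    _ ≤ X ^ (17 / 1000 : ℝ) * (X ^ (8 / 1000 : ℝ) * X ^ (7 / 8 : ℝ)) := by
        apply mul_le_mul_of_nonneg_right h2 (by positivity)
    _ = X ^ (9 / 10 : ℝ) := by
        rw [← Real.rpow_add hX0, ← Real.rpow_add hX0]
        norm_num

theorem ramsey (hMT : MTRG) : ∃ K : ℕ, 2 ≤ K ∧ ∃ c : ℝ, 0 < c ∧ ∀ᶠ X : ℝ in atTop,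
    ∀ T : Finset ℕ, (∀ t ∈ T, t.Prime ∧ yy X < t ∧ (t : ℝ) ≤ c * ff X) → T.card = K →
      ∃ a ∈ T, ∃ b ∈ T, a < b ∧ GoodGap X (b - a) := by
  classical
  obtain ⟨K, hK, c, hc, X0, h⟩ := hMT 2
  refine ⟨K, hK, c, hc, ?_⟩
  filter_upwards [eventually_ge_atTop X0, C3.ff_small c hc, poly_bound c hc,
    eventually_gt_atTop (0 : ℝ), C3.ff_tendsto.eventually_gt_atTop 0] with X hX hs hp hX0 hf T hT hTK
  by_contra hcon
  push Not at hcon
  obtain ⟨H, hH⟩ : ∃ H : ℕ, H = ⌊c * ff X⌋₊ := ⟨_, rfl⟩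
  have hcf : 0 ≤ c * ff X := by positivity
  have hHle : (H : ℝ) ≤ c * ff X := by
    rw [hH]
    exact Nat.floor_le hcf
  let bad : Finset ℕ := ((Finset.range (H + 1)) ×ˢ (Finset.range (H + 1))).biUnion
    (fun e => if GoodGap X e.1 then ∅ else (Idx X e.1).image (fun n => Nat.nth Nat.Prime n - e.2))
  have hbad : (bad.card : ℝ) ≤ X ^ (9 / 10 : ℝ) := by
    have h1 : (bad.card : ℝ) ≤ ∑ e ∈ (Finset.range (H + 1)) ×ˢ (Finset.range (H + 1)),
        X ^ (7 / 8 : ℝ) := by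
      have h2 : bad.card ≤ _ := card_biUnion_le
      calc (bad.card : ℝ) ≤ ((∑ e ∈ (Finset.range (H + 1)) ×ˢ (Finset.range (H + 1)),
          (if GoodGap X e.1 then (∅ : Finset ℕ) else
            (Idx X e.1).image (fun n => Nat.nth Nat.Prime n - e.2)).card : ℕ) : ℝ) := by
            exact_mod_cast h2
        _ ≤ _ := by
            push_cast
            apply Finset.sum_le_sum
            intro e _
            split_ifs with he
            · simp only [card_empty, Nat.cast_zero]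
              positivity
            · have h3 : (((Idx X e.1).image (fun n => Nat.nth Nat.Prime n - e.2)).card : ℝ) ≤
                  (Idx X e.1).card := by
                exact_mod_cast card_image_le
              have h4 : ((Idx X e.1).card : ℝ) < X ^ (7 / 8 : ℝ) := not_le.1 he
              linarith
    rw [sum_const, card_product, card_range, nsmul_eq_mul] at h1
    push_cast at h1
    refine h1.trans (le_trans ?_ hp)
    apply mul_le_mul_of_nonneg_right _ (by positivity)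
    rw [sq]
    have h5 : (H : ℝ) + 1 ≤ c * ff X + 1 := by linarith
    exact mul_le_mul h5 h5 (by positivity) (by positivity)
  let t : Fin K → ℕ := fun i => T.orderEmbOfFin hTK i
  have htm : StrictMono t := fun i j hij => (T.orderEmbOfFin hTK).strictMono hij
  have htT : ∀ i, t i ∈ T := fun i => T.orderEmbOfFin_mem hTK i
  obtain ⟨n, hn1, hn2, hn3, hn4, hn5⟩ := h X hX t htm.injective (fun j => hT _ (htT j)) bad hbad
  obtain ⟨j, hj, n₀, hnth⟩ := C3.consecutive (m := 1) t htm n (c * ff X)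
    (fun i => (hT _ (htT i)).2.2) hn4 hn5
  have e0 : Nat.nth Nat.Prime n₀ = n + t (j 0) := by
    have := hnth 0
    simpa using this
  have e1 : Nat.nth Nat.Prime (n₀ + 1) = n + t (j 1) := by
    have := hnth 1
    simpa using this
  have hj01 : j 0 < j 1 := hj (by decide)
  have hab : t (j 0) < t (j 1) := htm hj01
  have hng := hcon _ (htT (j 0)) _ (htT (j 1)) hab
  have hb : (t (j 1) : ℝ) ≤ c * ff X := (hT _ (htT (j 1))).2.2
  have hbH : t (j 1) ≤ H := by
    rw [hH]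
    exact Nat.le_floor hb
  apply hn3
  show n ∈ bad
  rw [mem_biUnion]
  refine ⟨(t (j 1) - t (j 0), t (j 0)), ?_, ?_⟩
  · rw [mem_product, mem_range, mem_range]
    constructor
    · show t (j 1) - t (j 0) < H + 1
      omega
    · show t (j 0) < H + 1
      omega
  · rw [if_neg hng, mem_image]
    refine ⟨n₀, ?_, ?_⟩
    · rw [mem_Idx, e0, e1]
      refine ⟨?_, ?_, ?_⟩
      · push_cast
        have : (0 : ℝ) ≤ (t (j 0) : ℝ) := Nat.cast_nonneg _
        linarith
      · push_cast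
        linarith
      · show n + t (j 1) = n + t (j 0) + (t (j 1) - t (j 0))
        omega
    · show Nat.nth Nat.Prime n₀ - t (j 0) = n
      omega

end Pool.Agent.H684R3
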